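import Mathlib

/-!
Poisson summation over the integer lattice for continuous compactly supported functions
on a finite power of the real line, evaluated at the origin.
-/

open MeasureTheory Set UnitAddTorus

noncomputable section

namespace Helper52.Circle

/-- The projection of the space onto the torus. -/
def proj {d : Type} (y : d → ℝ) : UnitAddTorus d := fun i => (y i : UnitAddCircle)

lemma isOpenQuotientMap_proj {d : Type} : IsOpenQuotientMap (proj (d := d)) :=
  IsOpenQuotientMap.piMap (fun _ => QuotientAddGroup.isOpenQuotientMap_mk)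

/-- integer vector as a real vector -/
def toR {d : Type} (v : d → ℤ) : d → ℝ := fun i => (v i : ℝ)

/-- periodization -/
def per {d : Type} (f : (d → ℝ) → ℂ) (y : d → ℝ) : ℂ := ∑' v : d → ℤ, f (y + toR v)

lemma finite_box {d : Type} [Fintype d] (K : ℝ) : ({v : d → ℤ | ∀ i, |(v i : ℝ)| ≤ K}).Finite := by
  have h : ({v : d → ℤ | ∀ i, |(v i : ℝ)| ≤ K}) ⊆
      Set.pi Set.univ (fun _ : d => Set.Icc (-⌈K⌉) ⌈K⌉) := by
    intro v hv i _
    have := hv i
    rw [abs_le] at this
    have h1 : (v i : ℝ) ≤ ⌈K⌉ := this.2.trans (Int.le_ceil K)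
    have h2 : (-⌈K⌉ : ℝ) ≤ v i := by
      have := Int.le_ceil K
      linarith
    constructor
    · exact_mod_cast h2
    · exact_mod_cast h1
  exact (Set.Finite.pi' (fun _ => Set.finite_Icc _ _)).subset (by
    intro v hv
    exact fun i => h hv i (Set.mem_univ i))

variable {d : Type} [Fintype d]

lemma per_eq_sum (f : (d → ℝ) → ℂ) (M : ℝ) (hM : ∀ y, (∃ i, M < |y i|) → f y = 0)
    (L : ℝ) (y : d → ℝ) (hy : ∀ i, |y i| ≤ L) :
    per f y = ∑ v ∈ (finite_box (d := d) (M + L)).toFinset, f (y + toR v) := by
  unfold per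
  apply tsum_eq_sum
  intro v hv
  simp only [Set.Finite.mem_toFinset, Set.mem_ofPred_eq, not_forall, not_le] at hv
  obtain ⟨i, hi⟩ := hv
  apply hM
  refine ⟨i, ?_⟩
  have h1 := hy i
  have : |(v i : ℝ)| ≤ |(y + toR v) i| + |y i| := by
    have := abs_sub (((y + toR v) i)) (y i)
    simpa [toR] using this
  linarith

lemma continuous_per (f : (d → ℝ) → ℂ) (hf : Continuous f) (M : ℝ)
    (hM : ∀ y, (∃ i, M < |y i|) → f y = 0) : Continuous (per f) := by
  rw [continuous_iff_continuousAt]
  intro y₀
  have hev : ∀ᶠ y in nhds y₀, ∀ i, |y i| ≤ ‖y₀‖ + 1 := by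
    have : ∀ᶠ y in nhds y₀, dist y y₀ < 1 :=
      Metric.eventually_nhds_iff.mpr ⟨1, one_pos, fun _ hy => hy⟩
    filter_upwards [this] with y hy i
    have h1 : ‖y‖ ≤ ‖y₀‖ + 1 := by
      have : ‖y‖ ≤ ‖y - y₀‖ + ‖y₀‖ := by simpa using norm_add_le (y - y₀) y₀
      rw [dist_eq_norm] at hy
      linarith
    exact (norm_le_pi_norm y i).trans h1
  have hc : ContinuousAt (fun y => ∑ v ∈ (finite_box (d := d) (M + (‖y₀‖ + 1))).toFinset,
      f (y + toR v)) y₀ := by
    apply Continuous.continuousAt
    apply continuous_finsetSum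
    intro v _
    exact hf.comp (continuous_id.add continuous_const)
  refine hc.congr ?_
  filter_upwards [hev] with y hy
  exact (per_eq_sum f M hM _ y hy).symm

omit [Fintype d] in
lemma per_add_int (f : (d → ℝ) → ℂ) (y : d → ℝ) (w : d → ℤ) : per f (y + toR w) = per f y := by
  unfold per
  rw [← (Equiv.addLeft w).tsum_eq (fun v => f (y + toR v))]
  apply tsum_congr
  intro v
  congr 1
  funext i
  simp [toR]
  ring

/-- the periodization descended to the torus -/
def perT (f : (d → ℝ) → ℂ) (x : UnitAddTorus d) : ℂ :=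
  per f (fun i => ((AddCircle.equivIoc 1 0 (x i)).1 : ℝ))

omit [Fintype d] in
lemma perT_proj (f : (d → ℝ) → ℂ) (y : d → ℝ) : perT f (proj y) = per f y := by
  unfold perT
  have h : ∀ i, ∃ n : ℤ, ((AddCircle.equivIoc 1 0 ((proj y) i)).1 : ℝ) = y i + n := by
    intro i
    have h1 : (((AddCircle.equivIoc 1 0 ((proj y) i)).1 : ℝ) : UnitAddCircle) = (y i : UnitAddCircle) :=
      AddCircle.coe_equivIoc
    rw [← sub_eq_zero, ← AddCircle.coe_sub, AddCircle.coe_eq_zero_iff] at h1
    obtain ⟨n, hn⟩ := h1
    refine ⟨n, ?_⟩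
    simp at hn
    linarith
  choose n hn using h
  have : (fun i => ((AddCircle.equivIoc 1 0 ((proj y) i)).1 : ℝ)) = y + toR n := by
    funext i
    simp [toR, hn i]
  rw [this, per_add_int]

lemma continuous_perT (f : (d → ℝ) → ℂ) (hf : Continuous f) (M : ℝ)
    (hM : ∀ y, (∃ i, M < |y i|) → f y = 0) : Continuous (perT f) := by
  rw [isOpenQuotientMap_proj.isQuotientMap.continuous_iff]
  have : perT f ∘ proj = per f := by
    funext y
    exact perT_proj f y
  rw [this]
  exact continuous_per f hf M hM

/-- the translated half open unit box -/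
def box (v : d → ℤ) : Set (d → ℝ) := {x | ∀ i, x i ∈ Ioc (v i : ℝ) (v i + 1)}

lemma measurableSet_box (v : d → ℤ) : MeasurableSet (box v) :=
  MeasurableSet.univ_pi' (fun _ => measurableSet_Ioc)

omit [Fintype d] in
lemma pairwise_disjoint_box : Pairwise (Function.onFun Disjoint (box (d := d))) := by
  intro v w hvw
  rw [Function.onFun, Set.disjoint_left]
  intro x hx hy
  apply hvw
  funext i
  have h1 := hx i
  have h2 := hy i
  rw [mem_Ioc] at h1 h2
  have h3 : (v i : ℝ) < w i + 1 := by linarith
  have h4 : (w i : ℝ) < v i + 1 := by linarith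
  have h5 : v i < w i + 1 := by exact_mod_cast h3
  have h6 : w i < v i + 1 := by exact_mod_cast h4
  omega

omit [Fintype d] in
lemma iUnion_box : (⋃ v, box (d := d) v) = Set.univ := by
  rw [Set.eq_univ_iff_forall]
  intro x
  rw [Set.mem_iUnion]
  refine ⟨fun i => ⌈x i⌉ - 1, fun i => ?_⟩
  push_cast
  constructor
  · have := Int.ceil_lt_add_one (x i)
    linarith
  · have := Int.le_ceil (x i)
    linarith

omit [Fintype d] in
lemma mem_box_iff (v : d → ℤ) (x : d → ℝ) : x + toR v ∈ box v ↔ x ∈ box (0 : d → ℤ) := by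
  constructor
  · intro h i
    have := h i
    simp only [Pi.add_apply, toR, mem_Ioc] at this
    simp only [Pi.zero_apply, Int.cast_zero, zero_add, mem_Ioc]
    constructor <;> linarith
  · intro h i
    have := h i
    simp only [Pi.zero_apply, Int.cast_zero, zero_add, mem_Ioc] at this
    simp only [Pi.add_apply, toR, mem_Ioc]
    constructor <;> linarith

lemma setIntegral_box {E : Type} [NormedAddCommGroup E] [NormedSpace ℝ E]
    (g : (d → ℝ) → E) (v : d → ℤ) :
    ∫ x in box v, g x = ∫ x in box (0 : d → ℤ), g (x + toR v) := by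
  have := (measurePreserving_add_right (volume : Measure (d → ℝ)) (toR v)).setIntegral_preimage_emb
    (MeasurableEquiv.addRight (toR v)).measurableEmbedding g (box v)
  rw [← this]
  congr 1
  congr 1
  ext x
  rw [Set.mem_preimage]
  exact (mem_box_iff v x)

/-- unfolding -/
lemma integral_unfold (g : (d → ℝ) → ℂ) (hg : Integrable g) :
    ∫ x in box (0 : d → ℤ), ∑' v : d → ℤ, g (x + toR v) = ∫ x, g x := by
  have h1 : HasSum (fun v : d → ℤ => ∫ x in box v, g x) (∫ x, g x) := by
    have := hasSum_integral_iUnion (μ := volume) (f := g) (s := box (d := d)) measurableSet_box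
      pairwise_disjoint_box (by rw [iUnion_box]; exact hg.integrableOn)
    rwa [iUnion_box, setIntegral_univ] at this
  have h2 : Summable (fun v : d → ℤ => ∫ x in box v, ‖g x‖) := by
    have := hasSum_integral_iUnion (μ := volume) (f := fun x => ‖g x‖) (s := box (d := d))
      measurableSet_box
      pairwise_disjoint_box (by rw [iUnion_box]; exact hg.norm.integrableOn)
    exact this.summable
  rw [← h1.tsum_eq]
  have h2' : Summable (fun v : d → ℤ => ∫ x in box (0 : d → ℤ), ‖g (x + toR v)‖) := by
    refine h2.congr (fun v => ?_)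
    exact setIntegral_box (fun x => ‖g x‖) v
  rw [← integral_tsum_of_summable_integral_norm _ h2']
  · apply tsum_congr
    intro v
    exact (setIntegral_box g v).symm
  · intro v
    exact (hg.comp_add_right (toR v)).integrableOn

/-- the character -/
def chr (k : d → ℤ) (y : d → ℝ) : ℂ := mFourier (-k) (proj y)

lemma chr_add_int (k : d → ℤ) (y : d → ℝ) (v : d → ℤ) : chr k (y + toR v) = chr k y := by
  unfold chr
  congr 1
  funext i
  simp only [proj, Pi.add_apply, toR]
  rw [AddCircle.coe_add]
  have : ((v i : ℝ) : UnitAddCircle) = 0 := by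
    rw [AddCircle.coe_eq_zero_iff]
    exact ⟨v i, by simp⟩
  rw [this, add_zero]

lemma continuous_chr (k : d → ℤ) : Continuous (chr k) :=
  (mFourier (-k)).continuous.comp isOpenQuotientMap_proj.continuous

lemma chr_eq (k : d → ℤ) (y : d → ℝ) :
    chr k y = Complex.exp (-(2 * Real.pi * Complex.I * ∑ i, (k i : ℂ) * (y i : ℂ))) := by
  unfold chr mFourier
  simp only [ContinuousMap.coe_mk, proj, Pi.neg_apply]
  rw [Finset.mul_sum, ← Finset.sum_neg_distrib, Complex.exp_sum]
  apply Finset.prod_congr rfl
  intro i _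
  rw [fourier_coe_apply]
  congr 1
  push_cast
  ring

/-- Poisson summation at the origin. -/
theorem poisson (f : (d → ℝ) → ℂ) (hf : Continuous f) (M : ℝ)
    (hM : ∀ y, (∃ i, M < |y i|) → f y = 0)
    (hs : Summable (fun k : d → ℤ => ∫ y, chr k y * f y)) :
    HasSum (fun k : d → ℤ => ∫ y, chr k y * f y) (∑' v : d → ℤ, f (toR v)) := by
  have hcs : HasCompactSupport f := by
    apply HasCompactSupport.intro (K := Metric.closedBall 0 (max M 0))
    · exact isCompact_closedBall _ _
    · intro x hx
      rw [mem_closedBall_zero_iff, not_le] at hx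
      apply hM
      by_contra hcon
      push Not at hcon
      have := (pi_norm_le_iff_of_nonneg (le_max_right M 0)).mpr
        (fun i => ((Real.norm_eq_abs _).le.trans (hcon i)).trans (le_max_left M 0))
      linarith
  have hint : ∀ k : d → ℤ, Integrable (fun y => chr k y * f y) := by
    intro k
    exact ((continuous_chr k).mul hf).integrable_of_hasCompactSupport hcs.mul_left
  let F : C(UnitAddTorus d, ℂ) := ⟨perT f, continuous_perT f hf M hM⟩
  have hcoef : ∀ k : d → ℤ, mFourierCoeff F k = ∫ y, chr k y * f y := by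
    intro k
    rw [mFourierCoeff_eq_integral (F) k (fun _ => 0), ← integral_unfold _ (hint k)]
    have hset : {x : d → ℝ | ∀ (i : d), x i ∈ Ioc (0:ℝ) (0 + 1)} = box (0 : d → ℤ) := by
      ext x
      simp [box]
    rw [hset]
    apply integral_congr_ae
    filter_upwards with x
    have h1 : F (fun i => (x i : UnitAddCircle)) = per f x := perT_proj f x
    rw [h1]
    simp_rw [chr_add_int]
    rw [tsum_mul_left]
    rfl
  have h0 := hasSum_mFourier_series_apply_of_summable (f := F) (by
    rw [funext hcoef]
    exact hs) (proj 0)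
  have h1 : F (proj 0) = ∑' v : d → ℤ, f (toR v) := by
    change perT f (proj 0) = _
    rw [perT_proj]
    unfold per
    simp
  rw [h1] at h0
  convert h0 using 2 with k
  rw [hcoef k]
  have : mFourier k (proj (0 : d → ℝ)) = 1 := by
    simp [mFourier, proj]
  rw [this, smul_eq_mul, mul_one]

end Helper52.Circle
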