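import Mathlib

/-!
An inequality for the theta function of the Gaussian lattice and the
comparison of lattice sums with integrals for mixtures of exponentials.
-/

open MeasureTheory Set Real
open scoped ENNReal

noncomputable section

namespace Helper52.Circle

/-- the theta function -/
def th (x : ℝ) : ℝ := ∑' n : ℤ, rexp (-π * x * (n : ℝ) ^ 2)

lemma summable_th_nat {x : ℝ} (hx : 0 < x) :
    Summable (fun n : ℕ => rexp (-π * x * ((n : ℝ) + 1) ^ 2)) := by
  have hq : rexp (-π * x) < 1 := by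
    rw [Real.exp_lt_one_iff]
    nlinarith [Real.pi_pos]
  refine Summable.of_nonneg_of_le (fun _ => (Real.exp_pos _).le) (fun n => ?_)
    (summable_geometric_of_lt_one (Real.exp_pos _).le hq)
  rw [← Real.exp_nat_mul]
  apply Real.exp_le_exp.mpr
  have h1 : (n : ℝ) ≤ ((n : ℝ) + 1) ^ 2 := by nlinarith [(Nat.cast_nonneg n : (0:ℝ) ≤ n)]
  have : π * x * n ≤ π * x * ((n : ℝ) + 1) ^ 2 :=
    mul_le_mul_of_nonneg_left h1 (by positivity)
  nlinarith

lemma summable_th {x : ℝ} (hx : 0 < x) : Summable (fun n : ℤ => rexp (-π * x * (n : ℝ) ^ 2)) := by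
  apply Summable.of_add_one_of_neg_add_one
  · convert summable_th_nat hx using 2 with n
    push_cast
    rfl
  · convert summable_th_nat hx using 2 with n
    congr 1
    push_cast
    ring

/-- the summand -/
def thf (x : ℝ) (m : ℤ) : ℝ := rexp (-π * x * (m : ℝ) ^ 2)

lemma thf_succ (x : ℝ) (n : ℕ) : thf x ((n : ℤ) + 1) = rexp (-π * x * ((n : ℝ) + 1) ^ 2) := by
  unfold thf
  push_cast
  rfl

lemma thf_neg_succ (x : ℝ) (n : ℕ) : thf x (-((n : ℤ) + 1)) = rexp (-π * x * ((n : ℝ) + 1) ^ 2) := by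
  unfold thf
  push_cast
  congr 1
  ring

lemma th_eq {x : ℝ} (hx : 0 < x) :
    th x = 1 + 2 * ∑' n : ℕ, rexp (-π * x * ((n : ℝ) + 1) ^ 2) := by
  have h1 : Summable (fun n : ℕ => thf x ((n : ℤ) + 1)) := by
    simp_rw [thf_succ]
    exact summable_th_nat hx
  have h2 : Summable (fun n : ℕ => thf x (-((n : ℤ) + 1))) := by
    simp_rw [thf_neg_succ]
    exact summable_th_nat hx
  have h3 := tsum_of_add_one_of_neg_add_one h1 h2
  simp_rw [thf_succ, thf_neg_succ] at h3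
  have h4 : th x = ∑' n : ℤ, thf x n := rfl
  have h5 : thf x 0 = 1 := by simp [thf]
  rw [h4, h3, h5]
  ring

lemma th_nonneg (x : ℝ) : 0 ≤ th x := tsum_nonneg (fun _ => (Real.exp_pos _).le)

lemma th_sq_le_of_one_le {x : ℝ} (hx : 1 ≤ x) : th x ^ 2 ≤ 1 + 1 / x := by
  have hx0 : 0 < x := by linarith
  set q := rexp (-π * x) with hq
  have hq0 : 0 < q := Real.exp_pos _
  have hπ := Real.pi_gt_three
  have hqle : q * (1 + π * x + (π * x) ^ 2 / 2) ≤ 1 := by
    have h1 := Real.quadratic_le_exp_of_nonneg (x := π * x) (by positivity)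
    have h2 : q * rexp (π * x) = 1 := by
      rw [hq, ← Real.exp_add]
      simp
    nlinarith
  have hpoly : 8.5 * x ≤ 1 + π * x + (π * x) ^ 2 / 2 := by
    have : 9 ≤ π ^ 2 := by nlinarith
    have h3 : 9 * x ≤ π ^ 2 * x ^ 2 := by
      nlinarith [mul_le_mul this (show x ≤ x ^ 2 by nlinarith) (by linarith) (by positivity)]
    nlinarith
  have hq8 : q * (8.5 * x) ≤ 1 := (mul_le_mul_of_nonneg_left hpoly hq0.le).trans hqle
  have hq8' : q ≤ 1 / 8.5 := by
    rw [le_div_iff₀ (by norm_num)]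
    nlinarith
  have hq1 : q < 1 := by
    have : (1:ℝ) / 8.5 < 1 := by norm_num
    linarith
  have hsum : ∑' n : ℕ, rexp (-π * x * ((n : ℝ) + 1) ^ 2) ≤ q / (1 - q) := by
    have hg : HasSum (fun n : ℕ => q * q ^ n) (q * (1 - q)⁻¹) :=
      (hasSum_geometric_of_lt_one hq0.le hq1).mul_left q
    rw [div_eq_mul_inv, ← hg.tsum_eq]
    apply Summable.tsum_le_tsum _ (summable_th_nat hx0) hg.summable
    intro n
    rw [← pow_succ', hq, ← Real.exp_nat_mul]
    apply Real.exp_le_exp.mpr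
    have h1 : ((n : ℝ) + 1) ≤ ((n : ℝ) + 1) ^ 2 := by nlinarith [(Nat.cast_nonneg n : (0:ℝ) ≤ n)]
    have : π * x * ((n:ℝ) + 1) ≤ π * x * ((n : ℝ) + 1) ^ 2 :=
      mul_le_mul_of_nonneg_left h1 (by positivity)
    push_cast
    nlinarith
  rw [th_eq hx0]
  set S := ∑' n : ℕ, rexp (-π * x * ((n : ℝ) + 1) ^ 2) with hS
  have hS0 : 0 ≤ S := tsum_nonneg (fun _ => (Real.exp_pos _).le)
  have hS1 : S ≤ q * (8.5 / 7.5) := by
    refine hsum.trans ?_
    rw [div_eq_mul_inv]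
    apply mul_le_mul_of_nonneg_left _ hq0.le
    rw [inv_le_comm₀ (by linarith) (by norm_num)]
    norm_num at hq8' ⊢
    linarith
  have hS2 : S ≤ 0.14 := by
    norm_num at hq8' hS1 ⊢
    linarith
  have h4 : (1 + 2 * S) ^ 2 ≤ 1 + 4.56 * S := by nlinarith
  have h5 : 4.56 * S ≤ 1 / x := by
    rw [le_div_iff₀ hx0]
    have : 4.56 * (q * (8.5 / 7.5)) * x ≤ 1 := by nlinarith
    nlinarith [mul_le_mul_of_nonneg_right hS1 hx0.le]
  linarith

lemma th_sq_le {x : ℝ} (hx : 0 < x) : th x ^ 2 ≤ 1 + 1 / x := by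
  rcases le_total 1 x with h | h
  · exact th_sq_le_of_one_le h
  · have h1 : th x = 1 / x ^ (1 / 2 : ℝ) * th (1 / x) := by
      unfold th
      rw [Real.tsum_exp_neg_mul_int_sq hx]
      congr 1
      apply tsum_congr
      intro n
      congr 1
      ring
    have h2 : (x ^ (1 / 2 : ℝ)) ^ 2 = x := by
      rw [← Real.rpow_natCast, ← Real.rpow_mul hx.le]
      norm_num
    have h3 : th (1 / x) ^ 2 ≤ 1 + 1 / (1 / x) :=
      th_sq_le_of_one_le (by rw [le_div_iff₀ hx]; linarith)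
    rw [h1, mul_pow, div_pow, h2, one_pow]
    rw [one_div_one_div] at h3
    calc 1 / x * th (1 / x) ^ 2 ≤ 1 / x * (1 + x) := by
          apply mul_le_mul_of_nonneg_left h3 (by positivity)
      _ = 1 + 1 / x := by
          field_simp
          ring

/-- the quadratic form -/
def Q (k : Fin 2 → ℤ) : ℝ := (k 0 : ℝ) ^ 2 + (k 1 : ℝ) ^ 2

lemma Q_nonneg (k : Fin 2 → ℤ) : 0 ≤ Q k := by unfold Q; positivity

lemma one_le_Q {k : Fin 2 → ℤ} (hk : k ≠ 0) : 1 ≤ Q k := by
  unfold Q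
  have : (1 : ℤ) ≤ (k 0) ^ 2 + (k 1) ^ 2 := by
    by_contra hcon
    push Not at hcon
    have h0 : k 0 = 0 := by nlinarith [sq_nonneg (k 0), sq_nonneg (k 1)]
    have h1 : k 1 = 0 := by nlinarith [sq_nonneg (k 0), sq_nonneg (k 1)]
    apply hk
    funext i
    fin_cases i <;> simp [h0, h1]
  exact_mod_cast this

lemma Q_zero : Q 0 = 0 := by simp [Q]

lemma hasSum_exp_Q {s : ℝ} (hs : 0 < s) :
    HasSum (fun k : Fin 2 → ℤ => rexp (-s * Q k)) (th (s / π) ^ 2) := by
  have hx : 0 < s / π := by positivity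
  have h := (summable_th hx).hasSum
  have h2 := h.mul h ((summable_th hx).mul_of_nonneg (summable_th hx)
    (fun _ => (Real.exp_pos _).le) (fun _ => (Real.exp_pos _).le))
  have h3 : HasSum (fun k : Fin 2 → ℤ => rexp (-π * (s / π) * ((k 0 : ℤ) : ℝ) ^ 2) *
      rexp (-π * (s / π) * ((k 1 : ℤ) : ℝ) ^ 2)) (th (s / π) * th (s / π)) := by
    have := (piFinTwoEquiv (fun _ => ℤ)).hasSum_iff (f := fun x : ℤ × ℤ =>
      rexp (-π * (s / π) * ((x.1 : ℤ) : ℝ) ^ 2) * rexp (-π * (s / π) * ((x.2 : ℤ) : ℝ) ^ 2))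
      (a := th (s / π) * th (s / π))
    exact this.mpr h2
  rw [sq]
  convert h3 using 2 with k
  rw [← Real.exp_add]
  congr 1
  unfold Q
  field_simp
  ring

end Helper52.Circle
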