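import Mathlib
import Pool.Agent.Helper52.Circle.Poisson
import Pool.Agent.Helper52.Circle.Theta

/-!
The Fourier transform of the disk: reduction to a one dimensional integral.
-/

open MeasureTheory Set Real

noncomputable section

namespace Helper52.Circle

/-- squared norm on the plane -/
def nsq (y : Fin 2 → ℝ) : ℝ := y 0 ^ 2 + y 1 ^ 2

/-- Fourier transform of the disk of radius r at the integer point k -/
def DK (k : Fin 2 → ℤ) (r : ℝ) : ℂ := ∫ y : Fin 2 → ℝ, if nsq y ≤ r ^ 2 then chr k y else 0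

/-- one dimensional form of the Fourier transform of the disk -/
def DF (κ r : ℝ) : ℂ :=
  ∫ x in (-r)..r, ((2 * √(r ^ 2 - x ^ 2) : ℝ) : ℂ) * Complex.exp (2 * π * κ * x * Complex.I)

lemma exists_rot (k : Fin 2 → ℤ) : ∃ M : Matrix (Fin 2) (Fin 2) ℝ, M.det = 1 ∧
    (∀ y, nsq (Matrix.toLin' M y) = nsq y) ∧
    (∀ y : Fin 2 → ℝ, (k 0 : ℝ) * y 0 + k 1 * y 1 = - (√(Q k)) * (Matrix.toLin' M y) 0) := by
  by_cases hk : k = 0
  · refine ⟨1, by simp, by simp, ?_⟩
    intro y
    simp [hk, Q_zero]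
  · have hQ : 1 ≤ Q k := one_le_Q hk
    have hs : 0 < √(Q k) := Real.sqrt_pos.mpr (by linarith)
    have hsq : √(Q k) ^ 2 = Q k := Real.sq_sqrt (by linarith)
    have hQ' : (k 0 : ℝ) ^ 2 + (k 1 : ℝ) ^ 2 = √(Q k) ^ 2 := by rw [hsq]; rfl
    refine ⟨!![-(k 0 : ℝ) / √(Q k), -(k 1 : ℝ) / √(Q k); (k 1 : ℝ) / √(Q k), -(k 0 : ℝ) / √(Q k)],
      ?_, ?_, ?_⟩
    · rw [Matrix.det_fin_two_of]
      field_simp
      linarith
    · intro y
      simp only [nsq, Matrix.toLin'_apply, Matrix.mulVec, dotProduct, Fin.sum_univ_two,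
        Matrix.of_apply, Matrix.cons_val_zero, Matrix.cons_val_one, Matrix.cons_val', 
        Matrix.cons_val_fin_one]
      field_simp
      rw [← hQ']
      ring
    · intro y
      simp only [Matrix.toLin'_apply, Matrix.mulVec, dotProduct, Fin.sum_univ_two,
        Matrix.of_apply, Matrix.cons_val_zero, Matrix.cons_val_one, Matrix.cons_val', 
        Matrix.cons_val_fin_one]
      field_simp
      ring

/-- the integrand after rotation, as a function on the product -/
def Gp (κ r : ℝ) (p : ℝ × ℝ) : ℂ :=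
  if p.1 ^ 2 + p.2 ^ 2 ≤ r ^ 2 then Complex.exp (2 * π * κ * p.1 * Complex.I) else 0

lemma measurable_Gp (κ r : ℝ) : Measurable (Gp κ r) := by
  unfold Gp
  apply Measurable.ite
  · exact measurableSet_le (by fun_prop) (by fun_prop)
  · fun_prop
  · fun_prop

lemma norm_Gp_le (κ r : ℝ) (p : ℝ × ℝ) : ‖Gp κ r p‖ ≤
    (Icc (-|r|) |r| ×ˢ Icc (-|r|) |r|).indicator (fun _ => (1:ℝ)) p := by
  unfold Gp
  split_ifs with h
  · have h1 : ‖Complex.exp (2 * π * κ * p.1 * Complex.I)‖ = 1 := by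
      have : (2 * π * κ * p.1 * Complex.I : ℂ) = ((2 * π * κ * p.1 : ℝ) : ℂ) * Complex.I := by
        push_cast; ring
      rw [this, Complex.norm_exp_ofReal_mul_I]
    rw [h1, Set.indicator_of_mem]
    have h2 : |p.1| ≤ |r| := sq_le_sq.mp (by nlinarith [sq_nonneg p.2])
    have h3 : |p.2| ≤ |r| := sq_le_sq.mp (by nlinarith [sq_nonneg p.1])
    exact ⟨abs_le.mp h2, abs_le.mp h3⟩
  · rw [norm_zero]
    exact Set.indicator_nonneg (fun _ _ => zero_le_one) _

lemma integrable_Gp (κ r : ℝ) : Integrable (Gp κ r) := by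
  have hI : Integrable ((Icc (-|r|) |r| ×ˢ Icc (-|r|) |r|).indicator (fun _ : ℝ × ℝ => (1:ℝ))) := by
    rw [integrable_indicator_iff (measurableSet_Icc.prod measurableSet_Icc)]
    exact integrableOn_const (isCompact_Icc.prod isCompact_Icc).measure_lt_top.ne (by simp)
  exact hI.mono' (measurable_Gp κ r).aestronglyMeasurable (ae_of_all _ (norm_Gp_le κ r))

lemma integral_Gp (κ : ℝ) {r : ℝ} (hr : 0 ≤ r) : ∫ p, Gp κ r p = DF κ r := by
  rw [Measure.volume_eq_prod, integral_prod _ (integrable_Gp κ r)]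
  have h1 : ∀ x : ℝ, ∫ z, Gp κ r (x, z) = (Icc (-r) r).indicator (fun x : ℝ =>
      ((2 * √(r ^ 2 - x ^ 2) : ℝ) : ℂ) * Complex.exp (2 * π * κ * x * Complex.I)) x := by
    intro x
    by_cases hx : x ∈ Icc (-r) r
    · rw [Set.indicator_of_mem hx]
      have hx2 : 0 ≤ r ^ 2 - x ^ 2 := by
        have := abs_le.mpr hx
        have := sq_le_sq' hx.1 hx.2
        linarith
      have h2 : ∀ z, Gp κ r (x, z) = (Icc (-√(r ^ 2 - x ^ 2)) (√(r ^ 2 - x ^ 2))).indicator
          (fun _ => Complex.exp (2 * π * κ * x * Complex.I)) z := by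
        intro z
        unfold Gp
        by_cases hz : z ∈ Icc (-√(r ^ 2 - x ^ 2)) (√(r ^ 2 - x ^ 2))
        · rw [Set.indicator_of_mem hz, if_pos]
          have h3 : z ^ 2 ≤ r ^ 2 - x ^ 2 := by
            have h4 := sq_le_sq' hz.1 hz.2
            rwa [Real.sq_sqrt hx2] at h4
          simp only
          linarith
        · rw [Set.indicator_of_notMem hz, if_neg]
          intro hcon
          simp only at hcon
          apply hz
          exact abs_le.mp (Real.abs_le_sqrt (by linarith))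
      simp_rw [h2]
      rw [integral_indicator measurableSet_Icc, setIntegral_const]
      simp only [Measure.real, Real.volume_Icc, sub_neg_eq_add]
      rw [ENNReal.toReal_ofReal (by positivity), Complex.real_smul]
      congr 2
      ring
    · rw [Set.indicator_of_notMem hx]
      have h2 : ∀ z, Gp κ r (x, z) = 0 := by
        intro z
        unfold Gp
        rw [if_neg]
        intro hcon
        simp only at hcon
        apply hx
        exact abs_le.mp (abs_le_of_sq_le_sq (by nlinarith [sq_nonneg z]) hr)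
      simp_rw [h2]
      simp
  simp_rw [h1]
  rw [integral_indicator measurableSet_Icc, integral_Icc_eq_integral_Ioc, 
    ← intervalIntegral.integral_of_le (by linarith)]
  rfl

theorem DK_eq (k : Fin 2 → ℤ) {r : ℝ} (hr : 0 ≤ r) : DK k r = DF (√(Q k)) r := by
  obtain ⟨M, hdet, hM1, hM2⟩ := exists_rot k
  rw [← integral_Gp _ hr]
  have hmp : Measure.map (Matrix.toLin' M) (volume : Measure (Fin 2 → ℝ)) = volume := by
    rw [Real.map_matrix_volume_pi_eq_smul_volume_pi (by rw [hdet]; exact one_ne_zero), hdet]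
    simp
  have h1 : DK k r = ∫ y : Fin 2 → ℝ, Gp (√(Q k)) r
      (MeasurableEquiv.finTwoArrow (Matrix.toLin' M y)) := by
    unfold DK
    apply integral_congr_ae
    filter_upwards with y
    unfold Gp
    have e1 : (MeasurableEquiv.finTwoArrow (Matrix.toLin' M y)).1 ^ 2 +
        (MeasurableEquiv.finTwoArrow (Matrix.toLin' M y)).2 ^ 2 = nsq y := by
      rw [← hM1 y]
      rfl
    rw [e1]
    split_ifs with h
    · rw [chr_eq, Fin.sum_univ_two]
      congr 1
      have h2 := hM2 y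
      have h3 : ((k 0 : ℂ) * (y 0 : ℂ) + (k 1 : ℂ) * (y 1 : ℂ)) =
          (((k 0 : ℝ) * y 0 + k 1 * y 1 : ℝ) : ℂ) := by push_cast; rfl
      rw [h3, h2]
      have h4 : (MeasurableEquiv.finTwoArrow (Matrix.toLin' M y)).1 = (Matrix.toLin' M y) 0 := rfl
      rw [h4]
      push_cast
      ring
    · rfl
  rw [h1]
  have hmeas : Measurable (fun z : Fin 2 → ℝ => Gp (√(Q k)) r (MeasurableEquiv.finTwoArrow z)) :=
    (measurable_Gp _ _).comp (MeasurableEquiv.finTwoArrow).measurable
  have h2 := integral_map (μ := (volume : Measure (Fin 2 → ℝ)))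
    (φ := fun y => Matrix.toLin' M y) 
    ((Matrix.toLin' M).continuous_of_finiteDimensional.measurable.aemeasurable)
    (f := fun z : Fin 2 → ℝ => Gp (√(Q k)) r (MeasurableEquiv.finTwoArrow z))
    hmeas.aestronglyMeasurable
  rw [← h2]
  have h3 : Measure.map (fun y => Matrix.toLin' M y) (volume : Measure (Fin 2 → ℝ)) = volume := hmp
  rw [h3]
  exact (volume_preserving_finTwoArrow ℝ).integral_comp' (Gp (√(Q k)) r)

/-- the area of the disk -/
lemma DF_zero {r : ℝ} (hr : 0 ≤ r) : DF 0 r = (π * r ^ 2 : ℝ) := by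
  unfold DF
  have h1 : ∀ x : ℝ, ((2 * √(r ^ 2 - x ^ 2) : ℝ) : ℂ) * Complex.exp (2 * π * (0:ℝ) * x * Complex.I) =
      ((2 * √(r ^ 2 - x ^ 2) : ℝ) : ℂ) := by
    intro x
    simp
  simp_rw [h1]
  rw [intervalIntegral.integral_ofReal]
  congr 1
  rcases hr.eq_or_lt with h0 | h0
  · rw [← h0]; simp
  rw [intervalIntegral.integral_const_mul]
  have h2 := intervalIntegral.integral_comp_mul_left (a := -1) (b := 1)
    (fun x => √(r ^ 2 - x ^ 2)) h0.ne'
  rw [mul_neg_one, mul_one] at h2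
  have h3 : ∀ x : ℝ, √(r ^ 2 - (r * x) ^ 2) = r * √(1 - x ^ 2) := by
    intro x
    rw [show r ^ 2 - (r * x) ^ 2 = r ^ 2 * (1 - x ^ 2) by ring,
      Real.sqrt_mul (sq_nonneg r), Real.sqrt_sq hr]
  simp_rw [h3] at h2
  rw [intervalIntegral.integral_const_mul, integral_sqrt_one_sub_sq, smul_eq_mul] at h2
  have h4 : ∫ x in (-r)..r, √(r ^ 2 - x ^ 2) = r * (r * (π / 2)) := by
    rw [h2]
    field_simp
  rw [h4]
  ring

end Helper52.Circle
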