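import Mathlib
import Pool.Agent.Helper52.Circle.Disk

/-!
Shifting the contour in the one dimensional integral for the Fourier transform of the disk.
-/

open MeasureTheory Set Real Filter Topology

noncomputable section

namespace Helper52.Circle

/-- the base of the amplitude -/
def zb (r y : ℝ) : ℂ := ((y ^ 2 : ℝ) : ℂ) - ((2 * r * y : ℝ) : ℂ) * Complex.I

lemma zb_re (r y : ℝ) : (zb r y).re = y ^ 2 := by simp [zb, -Complex.ofReal_pow]

lemma zb_im (r y : ℝ) : (zb r y).im = -(2 * r * y) := by simp [zb, -Complex.ofReal_pow]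

/-- the amplitude density -/
def ad (r y : ℝ) : ℂ := zb r y ^ (((1 / 2 : ℝ)) : ℂ)

lemma norm_zb_sq (r y : ℝ) : ‖zb r y‖ ^ 2 = (y ^ 2) ^ 2 + (2 * r * y) ^ 2 := by
  rw [← Complex.normSq_eq_norm_sq, Complex.normSq_apply, zb_re, zb_im]
  ring

lemma norm_zb_ge {r y : ℝ} (hr : 0 ≤ r) (hy : 0 ≤ y) : 2 * r * y ≤ ‖zb r y‖ := by
  apply le_of_sq_le_sq _ (norm_nonneg _)
  rw [norm_zb_sq]
  nlinarith [sq_nonneg (y ^ 2)]

lemma norm_zb_le {r y : ℝ} (hr : 0 < r) (hy : 0 ≤ y) :
    ‖zb r y‖ ≤ 2 * r * y * (1 + y ^ 2 / (16 * r ^ 2)) ^ 2 := by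
  apply le_of_sq_le_sq _ (by positivity)
  rw [norm_zb_sq]
  set u := y ^ 2 / (16 * r ^ 2) with hu
  have hu0 : 0 ≤ u := by positivity
  have h1 : 1 + 4 * u ≤ (1 + u) ^ 4 := by nlinarith [sq_nonneg u, sq_nonneg (u + 1), mul_nonneg hu0 hu0, mul_nonneg hu0 (mul_nonneg hu0 hu0)]
  have h2 : (2 * r * y) ^ 2 * (1 + 4 * u) = (y ^ 2) ^ 2 + (2 * r * y) ^ 2 := by
    rw [hu]; field_simp; ring
  calc (y ^ 2) ^ 2 + (2 * r * y) ^ 2 = (2 * r * y) ^ 2 * (1 + 4 * u) := h2.symm
    _ ≤ (2 * r * y) ^ 2 * (1 + u) ^ 4 := by gcongr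
    _ = (2 * r * y * (1 + u) ^ 2) ^ 2 := by ring

lemma norm_ad (r y : ℝ) : ‖ad r y‖ = √‖zb r y‖ := by
  unfold ad
  rw [Complex.norm_cpow_real, Real.sqrt_eq_rpow]

lemma norm_ad_le {r y : ℝ} (hr : 0 < r) (hy : 0 ≤ y) :
    ‖ad r y‖ ≤ √(2 * r * y) * (1 + y ^ 2 / (16 * r ^ 2)) := by
  rw [norm_ad]
  calc √‖zb r y‖ ≤ √(2 * r * y * (1 + y ^ 2 / (16 * r ^ 2)) ^ 2) := Real.sqrt_le_sqrt (norm_zb_le hr hy)
    _ = √(2 * r * y) * (1 + y ^ 2 / (16 * r ^ 2)) := by
      rw [Real.sqrt_mul (by positivity), Real.sqrt_sq (by positivity)]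

/-- the function whose contour is shifted -/
def hc (κ r : ℝ) (z : ℂ) : ℂ :=
  ((r : ℂ) ^ 2 - z ^ 2) ^ (((1 / 2 : ℝ)) : ℂ) * Complex.exp (2 * π * κ * z * Complex.I)

lemma hc_real {κ r x : ℝ} (hx : x ∈ Icc (-r) r) : hc κ r (x : ℂ) =
    ((√(r ^ 2 - x ^ 2) : ℝ) : ℂ) * Complex.exp (2 * π * κ * x * Complex.I) := by
  have hx2 : 0 ≤ r ^ 2 - x ^ 2 := by
    have := sq_le_sq' hx.1 hx.2
    linarith
  unfold hc
  congr 1
  rw [Real.sqrt_eq_rpow, Complex.ofReal_cpow hx2]
  push_cast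
  rfl

lemma hc_right (κ r y : ℝ) : hc κ r (((r : ℝ) : ℂ) + (y : ℂ) * Complex.I) =
    Complex.exp (2 * π * κ * r * Complex.I) * (ad r y * (rexp (-(2 * π * κ * y)) : ℝ)) := by
  unfold hc ad zb
  have h1 : (r : ℂ) ^ 2 - ((r : ℂ) + (y : ℂ) * Complex.I) ^ 2 =
      ((y ^ 2 : ℝ) : ℂ) - ((2 * r * y : ℝ) : ℂ) * Complex.I := by
    push_cast
    have := Complex.I_sq
    linear_combination (-(y:ℂ)^2) * this
  have h2 : (2 * π * κ * ((r : ℂ) + (y : ℂ) * Complex.I) * Complex.I : ℂ) =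
      2 * π * κ * r * Complex.I + ((-(2 * π * κ * y) : ℝ) : ℂ) := by
    push_cast
    have := Complex.I_sq
    linear_combination (2 * π * κ * (y:ℂ)) * this
  rw [h1, h2, Complex.exp_add, ← Complex.ofReal_exp]
  ring

lemma zb_arg_ne {r y : ℝ} (hy : 0 < y) : (zb r y).arg ≠ π := by
  intro h
  rw [Complex.arg_eq_pi_iff, zb_re] at h
  nlinarith [h.1, sq_nonneg y]

lemma hc_left {κ r y : ℝ} (hy : 0 < y) : hc κ r (((-r : ℝ) : ℂ) + (y : ℂ) * Complex.I) =
    (starRingEnd ℂ) (hc κ r (((r : ℝ) : ℂ) + (y : ℂ) * Complex.I)) := by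
  rw [hc_right]
  unfold hc ad
  have h1 : (r : ℂ) ^ 2 - (((-r : ℝ) : ℂ) + (y : ℂ) * Complex.I) ^ 2 = (starRingEnd ℂ) (zb r y) := by
    unfold zb
    simp only [map_sub, map_mul, Complex.conj_ofReal, Complex.conj_I]
    push_cast
    have := Complex.I_sq
    linear_combination (-(y:ℂ)^2) * this
  have h2 : (2 * π * κ * (((-r : ℝ) : ℂ) + (y : ℂ) * Complex.I) * Complex.I : ℂ) =
      (starRingEnd ℂ) (2 * π * κ * r * Complex.I) + ((-(2 * π * κ * y) : ℝ) : ℂ) := by
    simp only [map_mul, Complex.conj_ofReal, Complex.conj_I, Complex.conj_ofNat]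
    push_cast
    have := Complex.I_sq
    linear_combination (2 * π * κ * (y:ℂ)) * this
  rw [h1, h2, Complex.exp_add, ← Complex.ofReal_exp, Complex.exp_conj, map_mul, map_mul,
    Complex.conj_ofReal]
  have h3 := Complex.conj_cpow (zb r y) (((1 / 2 : ℝ)) : ℂ) (zb_arg_ne hy)
  rw [h3, Complex.conj_ofReal]
  ring

lemma continuousOn_hc {κ r T : ℝ} (hr : 0 < r) (hT : 0 < T) :
    ContinuousOn (hc κ r) (Set.uIcc (-r) r ×ℂ Set.uIcc 0 T) := by
  intro z hz
  apply ContinuousAt.continuousWithinAt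
  unfold hc
  apply ContinuousAt.mul
  · have h1 : ContinuousAt (fun z : ℂ => (r : ℂ) ^ 2 - z ^ 2) z := by fun_prop
    have h2 : ContinuousAt (fun x : ℂ => x ^ (((1 / 2 : ℝ)) : ℂ)) ((r : ℂ) ^ 2 - z ^ 2) := by
      apply Complex.continuousAt_cpow_const_of_re_pos
      · left
        rw [Complex.mem_reProdIm] at hz
        rw [uIcc_of_le (by linarith), uIcc_of_le hT.le] at hz
        have : ((r : ℂ) ^ 2 - z ^ 2).re = r ^ 2 - z.re ^ 2 + z.im ^ 2 := by
          simp [sq]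
          ring
        rw [this]
        have := sq_le_sq' hz.1.1 hz.1.2
        nlinarith [sq_nonneg z.im]
      · simp
    exact ContinuousAt.comp (f := fun z : ℂ => (r : ℂ) ^ 2 - z ^ 2)
      (g := fun x : ℂ => x ^ (((1 / 2 : ℝ)) : ℂ)) h2 h1
  · fun_prop

lemma differentiableOn_hc {κ r T : ℝ} (hr : 0 < r) (hT : 0 < T) :
    DifferentiableOn ℂ (hc κ r) (Ioo (min (-r) r) (max (-r) r) ×ℂ Ioo (min 0 T) (max 0 T)) := by
  intro z hz
  apply DifferentiableAt.differentiableWithinAt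
  rw [Complex.mem_reProdIm, min_eq_left (by linarith), max_eq_right (by linarith)] at hz
  unfold hc
  apply DifferentiableAt.mul
  · apply DifferentiableAt.cpow_const
    · fun_prop
    · left
      have : ((r : ℂ) ^ 2 - z ^ 2).re = r ^ 2 - z.re ^ 2 + z.im ^ 2 := by
        simp [sq]
        ring
      rw [this]
      have h1 : z.re ^ 2 < r ^ 2 := sq_lt_sq' hz.1.1 hz.1.2
      nlinarith [sq_nonneg z.im]
  · fun_prop

lemma measurable_ad (r : ℝ) : Measurable (ad r) := by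
  unfold ad zb
  fun_prop

lemma norm_ad_le' {r y : ℝ} (hr : 0 ≤ r) (hy : 0 ≤ y) : ‖ad r y‖ ≤ 1 + y ^ 2 + 2 * r * y := by
  rw [norm_ad]
  have h1 : ‖zb r y‖ ≤ y ^ 2 + 2 * r * y := by
    unfold zb
    refine (norm_sub_le _ _).trans ?_
    rw [norm_mul, Complex.norm_I, Complex.norm_real, Complex.norm_real, Real.norm_of_nonneg (by positivity),
      Real.norm_of_nonneg (by positivity)]
    linarith
  have h2 : √‖zb r y‖ ≤ 1 + ‖zb r y‖ := by
    have h3 := Real.sq_sqrt (norm_nonneg (zb r y))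
    nlinarith [Real.sqrt_nonneg ‖zb r y‖, sq_nonneg (√‖zb r y‖ - 1)]
  linarith

lemma integrableOn_pow_mul_exp {c : ℝ} (hc : 0 < c) (n : ℕ) :
    IntegrableOn (fun y : ℝ => y ^ n * rexp (-(c * y))) (Ioi 0) := by
  have h := Real.integral_rpow_mul_exp_neg_mul_Ioi (a := (n : ℝ) + 1) (r := c) (by positivity) hc
  have hpos : 0 < (1 / c) ^ ((n : ℝ) + 1) * Real.Gamma ((n : ℝ) + 1) :=
    mul_pos (Real.rpow_pos_of_pos (by positivity) _) (Real.Gamma_pos_of_pos (by positivity))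
  have hint : IntegrableOn (fun t : ℝ => t ^ ((n : ℝ) + 1 - 1) * rexp (-(c * t))) (Ioi 0) := by
    by_contra hcon
    rw [integral_undef hcon] at h
    linarith
  refine hint.congr_fun (fun t _ => ?_) measurableSet_Ioi
  simp only [add_sub_cancel_right, Real.rpow_natCast]

lemma integrableOn_ad {κ r : ℝ} (hκ : 0 < κ) (hr : 0 ≤ r) :
    IntegrableOn (fun y : ℝ => ad r y * ((rexp (-(2 * π * κ * y)) : ℝ) : ℂ)) (Ioi 0) := by
  have hc : 0 < 2 * π * κ := by positivity
  have hb : IntegrableOn (fun y : ℝ => y ^ 0 * rexp (-(2 * π * κ * y)) +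
      y ^ 2 * rexp (-(2 * π * κ * y)) + 2 * r * (y ^ 1 * rexp (-(2 * π * κ * y)))) (Ioi 0) := by
    exact ((integrableOn_pow_mul_exp hc 0).add (integrableOn_pow_mul_exp hc 2)).add
      ((integrableOn_pow_mul_exp hc 1).const_mul _)
  refine hb.mono' ?_ ?_
  · exact ((measurable_ad r).mul (by fun_prop)).aestronglyMeasurable
  · rw [ae_restrict_iff' measurableSet_Ioi]
    filter_upwards with y hy
    have hy' : (0:ℝ) < y := hy
    rw [norm_mul, Complex.norm_real, Real.norm_of_nonneg (Real.exp_pos _).le]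
    have := norm_ad_le' hr hy'.le
    nlinarith [Real.exp_pos (-(2 * π * κ * y))]

/-- half of the disk transform -/
def XK (κ r : ℝ) : ℂ := -2 * Complex.I * Complex.exp (2 * π * κ * r * Complex.I) *
  ∫ y in Ioi (0 : ℝ), ad r y * ((rexp (-(2 * π * κ * y)) : ℝ) : ℂ)

theorem DF_eq {κ r : ℝ} (hκ : 0 < κ) (hr : 0 < r) :
    DF κ r = XK κ r + (starRingEnd ℂ) (XK κ r) := by
  set A : ℂ := ∫ y in Ioi (0 : ℝ), hc κ r (((r : ℝ) : ℂ) + (y : ℂ) * Complex.I) with hA
  have hAeq : A = Complex.exp (2 * π * κ * r * Complex.I) *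
      ∫ y in Ioi (0 : ℝ), ad r y * ((rexp (-(2 * π * κ * y)) : ℝ) : ℂ) := by
    rw [hA, ← integral_const_mul]
    simp_rw [hc_right]
  have hint : IntegrableOn (fun y : ℝ => hc κ r (((r : ℝ) : ℂ) + (y : ℂ) * Complex.I)) (Ioi 0) := by
    simp_rw [hc_right]
    exact (integrableOn_ad hκ hr.le).const_mul _
  have hint2 : IntegrableOn (fun y : ℝ => hc κ r (((-r : ℝ) : ℂ) + (y : ℂ) * Complex.I)) (Ioi 0) := by
    have h1 : IntegrableOn (fun y : ℝ => (starRingEnd ℂ)
        (hc κ r (((r : ℝ) : ℂ) + (y : ℂ) * Complex.I))) (Ioi 0) := by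
      exact (LinearIsometryEquiv.integrable_comp_iff Complex.conjLIE).mpr hint
    refine h1.congr_fun (fun y hy => ?_) measurableSet_Ioi
    exact (hc_left hy).symm
  have hconj : ∫ y in Ioi (0 : ℝ), hc κ r (((-r : ℝ) : ℂ) + (y : ℂ) * Complex.I) =
      (starRingEnd ℂ) A := by
    rw [hA, ← integral_conj]
    apply setIntegral_congr_fun measurableSet_Ioi
    intro y hy
    exact hc_left hy
  -- the rectangle identity
  have hrect : ∀ T : ℝ, 0 < T →
      (∫ x in (-r)..r, hc κ r ((x : ℝ) : ℂ)) =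
      (∫ x in (-r)..r, hc κ r ((x : ℂ) + (T : ℂ) * Complex.I)) -
      Complex.I * (∫ y in (0:ℝ)..T, hc κ r (((r : ℝ) : ℂ) + (y : ℂ) * Complex.I)) +
      Complex.I * (∫ y in (0:ℝ)..T, hc κ r (((-r : ℝ) : ℂ) + (y : ℂ) * Complex.I)) := by
    intro T hT
    have h := Complex.integral_boundary_rect_eq_zero_of_continuousOn_of_differentiableOn (hc κ r)
      ((-r : ℝ) : ℂ) ((r : ℂ) + (T : ℂ) * Complex.I)
      (by
        simpa using continuousOn_hc (κ := κ) hr hT)
      (by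
        simpa using differentiableOn_hc (κ := κ) hr hT)
    simp only [Complex.ofReal_re, Complex.add_re, Complex.mul_re, Complex.I_re, mul_zero,
      Complex.ofReal_im, Complex.I_im, mul_one, sub_self, add_zero, Complex.add_im, Complex.mul_im,
      zero_add, Complex.ofReal_zero, zero_mul, smul_eq_mul] at h
    linear_combination h
  have htop : Tendsto (fun T : ℝ => ∫ x in (-r)..r, hc κ r ((x : ℂ) + (T : ℂ) * Complex.I))
      atTop (𝓝 0) := by
    have hb : ∀ T : ℝ, 0 < T → ‖∫ x in (-r)..r, hc κ r ((x : ℂ) + (T : ℂ) * Complex.I)‖ ≤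
        (1 + r ^ 2 + (r + T) ^ 2) * rexp (-(2 * π * κ * T)) * |r - -r| := by
      intro T hT
      apply intervalIntegral.norm_integral_le_of_norm_le_const
      intro x hx
      rw [uIoc_of_le (by linarith)] at hx
      unfold hc
      rw [norm_mul, Complex.norm_cpow_real, Complex.norm_exp]
      have h1 : (2 * π * κ * ((x : ℂ) + (T : ℂ) * Complex.I) * Complex.I : ℂ).re = -(2 * π * κ * T) := by
        have : (2 * π * κ * ((x : ℂ) + (T : ℂ) * Complex.I) * Complex.I : ℂ) =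
            ((2 * π * κ * x : ℝ) : ℂ) * Complex.I + ((-(2 * π * κ * T) : ℝ) : ℂ) := by
          push_cast
          have := Complex.I_sq
          linear_combination (2 * π * κ * (T:ℂ)) * this
        rw [this]
        simp
      rw [h1]
      apply mul_le_mul_of_nonneg_right _ (Real.exp_pos _).le
      have h2 : ‖(r : ℂ) ^ 2 - ((x : ℂ) + (T : ℂ) * Complex.I) ^ 2‖ ≤ r ^ 2 + (r + T) ^ 2 := by
        refine (norm_sub_le _ _).trans ?_
        rw [norm_pow, norm_pow, Complex.norm_real, Real.norm_of_nonneg hr.le]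
        have h3 : ‖(x : ℂ) + (T : ℂ) * Complex.I‖ ≤ r + T := by
          refine (norm_add_le _ _).trans ?_
          rw [norm_mul, Complex.norm_I, Complex.norm_real, Complex.norm_real, Real.norm_of_nonneg hT.le,
            Real.norm_eq_abs]
          have := abs_le.mpr ⟨hx.1.le, hx.2⟩
          linarith
        have := pow_le_pow_left₀ (norm_nonneg _) h3 2
        linarith
      rw [← Real.sqrt_eq_rpow]
      set N := ‖(r : ℂ) ^ 2 - ((x : ℂ) + (T : ℂ) * Complex.I) ^ 2‖ with hN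
      have h4 := Real.sq_sqrt (norm_nonneg ((r : ℂ) ^ 2 - ((x : ℂ) + (T : ℂ) * Complex.I) ^ 2))
      rw [← hN] at h4
      nlinarith [Real.sqrt_nonneg N, sq_nonneg (√N - 1)]
    have hlim : Tendsto (fun T : ℝ => (1 + r ^ 2 + (r + T) ^ 2) * rexp (-(2 * π * κ * T)) * |r - -r|)
        atTop (𝓝 0) := by
      have hc : 0 < 2 * π * κ := by positivity
      have e0 : Tendsto (fun T : ℝ => rexp (-(2 * π * κ * T))) atTop (𝓝 0) := by
        apply Real.tendsto_exp_neg_atTop_nhds_zero.comp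
        exact tendsto_id.const_mul_atTop hc
      have e1 : Tendsto (fun T : ℝ => T ^ 1 * rexp (-(2 * π * κ * T))) atTop (𝓝 0) := by
        have := (Real.tendsto_pow_mul_exp_neg_atTop_nhds_zero 1).comp
          (tendsto_id.const_mul_atTop hc)
        have h2 := this.const_mul (1 / (2 * π * κ))
        rw [mul_zero] at h2
        refine h2.congr (fun T => ?_)
        simp only [Function.comp, id]
        field_simp
      have e2 : Tendsto (fun T : ℝ => T ^ 2 * rexp (-(2 * π * κ * T))) atTop (𝓝 0) := by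
        have := (Real.tendsto_pow_mul_exp_neg_atTop_nhds_zero 2).comp
          (tendsto_id.const_mul_atTop hc)
        have h2 := this.const_mul (1 / (2 * π * κ) ^ 2)
        rw [mul_zero] at h2
        refine h2.congr (fun T => ?_)
        simp only [Function.comp, id]
        field_simp
      have e3 := (((e0.const_mul (1 + r ^ 2 + r ^ 2)).add (e1.const_mul (2 * r))).add e2).mul_const
        (|r - -r|)
      simp only [mul_zero, add_zero, zero_mul] at e3
      refine e3.congr (fun T => ?_)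
      ring
    refine squeeze_zero_norm' ?_ hlim
    filter_upwards [eventually_gt_atTop 0] with T hT
    exact hb T hT
  have hlim : Tendsto (fun T : ℝ => (∫ x in (-r)..r, hc κ r ((x : ℂ) + (T : ℂ) * Complex.I)) -
      Complex.I * (∫ y in (0:ℝ)..T, hc κ r (((r : ℝ) : ℂ) + (y : ℂ) * Complex.I)) +
      Complex.I * (∫ y in (0:ℝ)..T, hc κ r (((-r : ℝ) : ℂ) + (y : ℂ) * Complex.I))) atTop
      (𝓝 (0 - Complex.I * A + Complex.I * (starRingEnd ℂ) A)) := by
    have h1 := (intervalIntegral_tendsto_integral_Ioi 0 hint tendsto_id).const_mul Complex.I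
    have h2 := (intervalIntegral_tendsto_integral_Ioi 0 hint2 tendsto_id).const_mul Complex.I
    rw [hconj] at h2
    exact (htop.sub h1).add h2
  have hconst : (∫ x in (-r)..r, hc κ r ((x : ℝ) : ℂ)) =
      0 - Complex.I * A + Complex.I * (starRingEnd ℂ) A := by
    refine tendsto_nhds_unique (f := fun _ : ℝ => (∫ x in (-r)..r, hc κ r ((x : ℝ) : ℂ)))
      (l := atTop) tendsto_const_nhds ?_
    refine hlim.congr' ?_
    filter_upwards [eventually_gt_atTop 0] with T hT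
    exact (hrect T hT).symm
  have hDF : DF κ r = 2 * ∫ x in (-r)..r, hc κ r ((x : ℝ) : ℂ) := by
    unfold DF
    rw [← intervalIntegral.integral_const_mul]
    apply intervalIntegral.integral_congr
    intro x hx
    rw [uIcc_of_le (by linarith)] at hx
    simp only
    rw [hc_real hx]
    push_cast
    ring
  rw [hDF, hconst]
  have hX : XK κ r = -2 * Complex.I * A := by
    rw [hAeq]
    unfold XK
    ring
  rw [hX]
  simp only [map_mul, map_neg, Complex.conj_I, Complex.conj_ofNat]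
  ring

end Helper52.Circle
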