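import Mathlib
import Pool.Agent.Helper52.Circle.Contour

/-!
Averages of the disk transform over the radius with a Gamma kernel.
-/

open MeasureTheory Set Real Filter Topology

noncomputable section

namespace Helper52.Circle

/-- complex frequency -/
def bet (lam κ ε : ℝ) : ℂ := (lam : ℂ) - ((2 * π * κ * ε : ℝ) : ℂ) * Complex.I

lemma bet_re (lam κ ε : ℝ) : (bet lam κ ε).re = lam := by simp [bet, -Complex.ofReal_mul]

lemma norm_bet_sq {lam κ ε : ℝ} (hε : ε ^ 2 = 1) :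
    ‖bet lam κ ε‖ ^ 2 = lam ^ 2 + (2 * π * κ) ^ 2 := by
  rw [← Complex.normSq_eq_norm_sq, Complex.normSq_apply, bet_re]
  have : (bet lam κ ε).im = - (2 * π * κ * ε) := by simp [bet, -Complex.ofReal_mul]
  rw [this]
  linear_combination (2 * π * κ) ^ 2 * hε

lemma integral_lin_exp_le {lam b T : ℝ} (hl : 0 < lam) (hb : 0 < b) (hT : 0 ≤ T) :
    ∫ t in (0:ℝ)..T, (t / b + 1 / b ^ 2) * rexp (-(lam * t)) ≤
      1 / (b * lam ^ 2) + 1 / (b ^ 2 * lam) := by
  have h1 : ∀ t ∈ uIcc 0 T, HasDerivAt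
      (fun t : ℝ => -(t / (b * lam) + 1 / (b * lam ^ 2) + 1 / (b ^ 2 * lam)) * rexp (-(lam * t)))
      ((t / b + 1 / b ^ 2) * rexp (-(lam * t))) t := by
    intro t _
    have e1 : HasDerivAt (fun t : ℝ => rexp (-(lam * t))) (rexp (-(lam * t)) * (-lam)) t := by
      have h2 : HasDerivAt (fun t : ℝ => -(lam * t)) (-lam) t := by
        exact (((hasDerivAt_id t).const_mul lam).neg).congr_deriv (by ring)
      exact h2.exp
    have e2 : HasDerivAt (fun t : ℝ => -(t / (b * lam) + 1 / (b * lam ^ 2) + 1 / (b ^ 2 * lam)))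
        (-(1 / (b * lam))) t := by
      exact ((((hasDerivAt_id t).div_const (b * lam)).add_const (1 / (b * lam ^ 2))).add_const
        (1 / (b ^ 2 * lam))).neg
    refine (e2.mul e1).congr_deriv ?_
    field_simp
    ring
  rw [intervalIntegral.integral_eq_sub_of_hasDerivAt h1
    (Continuous.intervalIntegrable (by fun_prop) _ _)]
  have h2 : 0 ≤ (T / (b * lam) + 1 / (b * lam ^ 2) + 1 / (b ^ 2 * lam)) * rexp (-(lam * T)) := by
    positivity
  simp only [mul_zero, neg_zero, Real.exp_zero, mul_one, zero_div, zero_add]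
  linarith

/-- the inner average -/
def JJ (lam κ ε R T y : ℝ) : ℂ :=
  ∫ t in (0:ℝ)..T, ad (R + ε * t) y * ((t : ℂ) * Complex.exp (-(bet lam κ ε) * t))

lemma hasDerivAt_ad {ε R y : ℝ} (hy : 0 < y) (t : ℝ) :
    HasDerivAt (fun t : ℝ => ad (R + ε * t) y)
      ((((1 / 2 : ℝ)) : ℂ) * zb (R + ε * t) y ^ ((((1 / 2 : ℝ)) : ℂ) - 1) *
        (-(((2 * ε * y : ℝ) : ℂ) * Complex.I))) t := by
  unfold ad
  have h1 : HasDerivAt (fun t : ℝ => zb (R + ε * t) y) (-(((2 * ε * y : ℝ) : ℂ) * Complex.I)) t := by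
    unfold zb
    have e1 : HasDerivAt (fun t : ℝ => 2 * (R + ε * t) * y) (2 * ε * y) t := by
      exact (((((hasDerivAt_id t).const_mul ε).const_add R).const_mul 2).mul_const y).congr_deriv
        (by ring)
    have e2 := (e1.ofReal_comp.mul_const Complex.I).const_sub ((y ^ 2 : ℝ) : ℂ)
    exact e2
  have h2 : zb (R + ε * t) y ∈ Complex.slitPlane := by
    left
    rw [zb_re]
    positivity
  have h3 := (Complex.hasStrictDerivAt_cpow_const (c := (((1 / 2 : ℝ)) : ℂ)) h2).hasDerivAt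
  exact h3.comp t h1

lemma JJ_bound {lam κ ε R T y : ℝ} (hl : 0 < lam) (hε : ε = 1 ∨ ε = -1) (hR : 0 < R)
    (hT : 0 ≤ T) (hTR : T ≤ R / 2) (hy : 0 < y) :
    ‖JJ lam κ ε R T y‖ ≤ (1 / ‖bet lam κ ε‖ ^ 2) * ‖ad R y‖ +
      (T / ‖bet lam κ ε‖ + 1 / ‖bet lam κ ε‖ ^ 2) * rexp (-(lam * T)) * ‖ad (R + ε * T) y‖ +
      √(y / R) * (1 / (‖bet lam κ ε‖ * lam ^ 2) + 1 / (‖bet lam κ ε‖ ^ 2 * lam)) := by
  set β := bet lam κ ε with hβ
  have hβre : β.re = lam := bet_re _ _ _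
  have hβ0 : β ≠ 0 := by
    intro h
    rw [h] at hβre
    simp at hβre
    linarith
  have hb : 0 < ‖β‖ := norm_pos_iff.mpr hβ0
  have hexpn : ∀ t : ℝ, ‖Complex.exp (-β * t)‖ = rexp (-(lam * t)) := by
    intro t
    rw [Complex.norm_exp]
    congr 1
    simp [hβre]
  let u : ℝ → ℂ := fun t => ad (R + ε * t) y
  let u' : ℝ → ℂ := fun t => (((1 / 2 : ℝ)) : ℂ) * zb (R + ε * t) y ^ ((((1 / 2 : ℝ)) : ℂ) - 1) *
        (-(((2 * ε * y : ℝ) : ℂ) * Complex.I))
  let v : ℝ → ℂ := fun t => -((t : ℂ) / β + 1 / β ^ 2) * Complex.exp (-β * t)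
  let v' : ℝ → ℂ := fun t => (t : ℂ) * Complex.exp (-β * t)
  have hu : ∀ t ∈ uIcc 0 T, HasDerivAt u (u' t) t := fun t _ => hasDerivAt_ad hy t
  have hv : ∀ t ∈ uIcc 0 T, HasDerivAt v (v' t) t := by
    intro t _
    have e1 : HasDerivAt (fun t : ℝ => Complex.exp (-β * t)) (Complex.exp (-β * t) * (-β)) t := by
      have h2 : HasDerivAt (fun t : ℝ => -β * (t : ℂ)) (-β) t := by
        exact ((Complex.ofRealCLM.hasDerivAt (x := t)).const_mul (-β)).congr_deriv (by simp)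
      exact h2.cexp
    have e2 : HasDerivAt (fun t : ℝ => -((t : ℂ) / β + 1 / β ^ 2)) (-(1 / β)) t := by
      have h3 : HasDerivAt (fun t : ℝ => (t : ℂ)) 1 t :=
        (Complex.ofRealCLM.hasDerivAt (x := t)).congr_deriv (by simp)
      exact ((h3.div_const β).add_const (1 / β ^ 2)).neg
    refine (e2.mul e1).congr_deriv ?_
    simp only [v']
    field_simp
    ring
  have hcu' : ContinuousOn u' (uIcc 0 T) := by
    intro t _
    apply ContinuousAt.continuousWithinAt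
    have h2 : zb (R + ε * t) y ∈ Complex.slitPlane := by
      left
      rw [zb_re]
      positivity
    have hz : ContinuousAt (fun t : ℝ => zb (R + ε * t) y) t := by
      unfold zb
      fun_prop
    have h4 : ContinuousAt (fun t : ℝ => zb (R + ε * t) y ^ ((((1 / 2 : ℝ)) : ℂ) - 1)) t := by
      exact ContinuousAt.comp (f := fun t : ℝ => zb (R + ε * t) y)
        (g := fun z : ℂ => z ^ ((((1 / 2 : ℝ)) : ℂ) - 1)) (continuousAt_cpow_const h2) hz
    exact (continuousAt_const.mul h4).mul continuousAt_const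
  have hcv' : Continuous v' := by fun_prop
  have hibp := intervalIntegral.integral_mul_deriv_eq_deriv_mul hu hv
    (hcu'.intervalIntegrable) (hcv'.intervalIntegrable _ _)
  have hJ : JJ lam κ ε R T y = u T * v T - u 0 * v 0 - ∫ t in (0:ℝ)..T, u' t * v t := by
    rw [← hibp]
    rfl
  have hvn : ∀ t : ℝ, 0 ≤ t → ‖v t‖ ≤ (t / ‖β‖ + 1 / ‖β‖ ^ 2) * rexp (-(lam * t)) := by
    intro t ht
    simp only [v]
    rw [norm_mul, hexpn, norm_neg]
    apply mul_le_mul_of_nonneg_right _ (Real.exp_pos _).le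
    refine (norm_add_le _ _).trans ?_
    rw [norm_div, norm_div, norm_pow, norm_one, Complex.norm_real, Real.norm_of_nonneg ht]
  have hu'n : ∀ t ∈ Icc 0 T, ‖u' t‖ ≤ √(y / R) := by
    intro t ht
    simp only [u']
    have hr : R / 2 ≤ R + ε * t := by
      rcases hε with h | h <;> rw [h] <;> linarith [ht.1, ht.2]
    have hz1 : R * y ≤ ‖zb (R + ε * t) y‖ := by
      have := norm_zb_ge (r := R + ε * t) (by linarith) hy.le
      nlinarith
    have hcast : ((((1 / 2 : ℝ)) : ℂ) - 1) = (((-(1 / 2) : ℝ)) : ℂ) := by push_cast; ring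
    rw [norm_mul, norm_mul, hcast, Complex.norm_cpow_real, norm_neg, norm_mul, Complex.norm_I,
      Complex.norm_real, Complex.norm_real]
    have hε1 : |ε| = 1 := by rcases hε with h | h <;> rw [h] <;> simp
    have e1 : ‖2 * ε * y‖ = 2 * y := by
      rw [Real.norm_eq_abs, abs_mul, abs_mul, hε1, abs_of_pos hy]
      norm_num
    have e2 : ‖(1 / 2 : ℝ)‖ = 1 / 2 := by norm_num
    rw [e1, e2, Real.rpow_neg (norm_nonneg _), ← Real.sqrt_eq_rpow]
    have hs : √(R * y) ≤ √‖zb (R + ε * t) y‖ := Real.sqrt_le_sqrt hz1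
    have hs0 : 0 < √(R * y) := Real.sqrt_pos.mpr (by positivity)
    have h5 : (√‖zb (R + ε * t) y‖)⁻¹ ≤ (√(R * y))⁻¹ := inv_anti₀ hs0 hs
    have h6 : √(y / R) = y * (√(R * y))⁻¹ := by
      rw [Real.sqrt_div hy.le, Real.sqrt_mul hR.le]
      have h7 : 0 < √R := Real.sqrt_pos.mpr hR
      have h8 : 0 < √y := Real.sqrt_pos.mpr hy
      field_simp
      rw [Real.sq_sqrt hy.le]
    rw [h6]
    nlinarith
  have hlast : ‖∫ t in (0:ℝ)..T, u' t * v t‖ ≤
      √(y / R) * (1 / (‖β‖ * lam ^ 2) + 1 / (‖β‖ ^ 2 * lam)) := by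
    have hle := intervalIntegral.norm_integral_le_of_norm_le (μ := volume) (f := fun t => u' t * v t) 
      (g := fun t => √(y / R) * ((t / ‖β‖ + 1 / ‖β‖ ^ 2) * rexp (-(lam * t)))) hT
      (ae_of_all _ (by
        intro t ht
        rw [norm_mul]
        have ht' : t ∈ Icc 0 T := ⟨ht.1.le, ht.2⟩
        exact mul_le_mul (hu'n t ht') (hvn t ht.1.le) (norm_nonneg _) (Real.sqrt_nonneg _)))
      (Continuous.intervalIntegrable (by fun_prop) _ _)
    refine hle.trans ?_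
    rw [intervalIntegral.integral_const_mul]
    exact mul_le_mul_of_nonneg_left (integral_lin_exp_le hl hb hT) (Real.sqrt_nonneg _)
  rw [hJ]
  have hv0 : ‖v 0‖ = 1 / ‖β‖ ^ 2 := by
    simp [v]
  have hu0 : u 0 = ad R y := by simp [u]
  calc ‖u T * v T - u 0 * v 0 - ∫ t in (0:ℝ)..T, u' t * v t‖
      ≤ ‖u T * v T - u 0 * v 0‖ + ‖∫ t in (0:ℝ)..T, u' t * v t‖ := norm_sub_le _ _
    _ ≤ ‖u T * v T‖ + ‖u 0 * v 0‖ + ‖∫ t in (0:ℝ)..T, u' t * v t‖ := by
        gcongr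
        exact norm_sub_le _ _
    _ ≤ ‖u T‖ * ((T / ‖β‖ + 1 / ‖β‖ ^ 2) * rexp (-(lam * T))) + ‖ad R y‖ * (1 / ‖β‖ ^ 2) +
        √(y / R) * (1 / (‖β‖ * lam ^ 2) + 1 / (‖β‖ ^ 2 * lam)) := by
        have h9 : ‖u 0 * v 0‖ = ‖ad R y‖ * (1 / ‖β‖ ^ 2) := by rw [norm_mul, hv0, hu0]
        have h10 : ‖u T * v T‖ ≤ ‖u T‖ * ((T / ‖β‖ + 1 / ‖β‖ ^ 2) * rexp (-(lam * T))) := by
          rw [norm_mul]
          exact mul_le_mul_of_nonneg_left (hvn T hT) (norm_nonneg _)
        rw [h9]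
        linarith
    _ = _ := by
        simp only [u]
        ring

end Helper52.Circle
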