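import Mathlib
import Pool.Agent.Helper52.Circle.Average

/-!
The average of the disk transform over the radius: exchange of the integrals and final bound.
-/

open MeasureTheory Set Real Filter Topology

noncomputable section

namespace Helper52.Circle

/-- first moment -/
def M1 (c : ℝ) : ℝ := (1 / c) ^ (3 / 2 : ℝ) * Real.Gamma (3 / 2)

lemma M1_pos {c : ℝ} (hc : 0 < c) : 0 < M1 c :=
  mul_pos (Real.rpow_pos_of_pos (by positivity) _) (Real.Gamma_pos_of_pos (by norm_num))

lemma integrable_of_gamma {a c : ℝ} (ha : 0 < a) (hc : 0 < c) :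
    IntegrableOn (fun t : ℝ => t ^ (a - 1) * rexp (-(c * t))) (Ioi 0) := by
  have h := Real.integral_rpow_mul_exp_neg_mul_Ioi ha hc
  have hpos : 0 < (1 / c) ^ a * Real.Gamma a :=
    mul_pos (Real.rpow_pos_of_pos (by positivity) _) (Real.Gamma_pos_of_pos ha)
  by_contra hcon
  rw [integral_undef hcon] at h
  linarith

lemma integrable_m1 {c : ℝ} (hc : 0 < c) :
    IntegrableOn (fun y : ℝ => √y * rexp (-(c * y))) (Ioi 0) := by
  refine (integrable_of_gamma (a := 3 / 2) (by norm_num) hc).congr_fun (fun y _ => ?_)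
    measurableSet_Ioi
  simp only
  rw [Real.sqrt_eq_rpow]
  norm_num

lemma integral_m1 {c : ℝ} (hc : 0 < c) : ∫ y in Ioi (0:ℝ), √y * rexp (-(c * y)) = M1 c := by
  unfold M1
  rw [← Real.integral_rpow_mul_exp_neg_mul_Ioi (by norm_num) hc]
  apply setIntegral_congr_fun measurableSet_Ioi
  intro y _
  simp only
  rw [Real.sqrt_eq_rpow]
  norm_num

lemma sqrt_mul_sq {y : ℝ} (hy : 0 < y) : √y * y ^ 2 = y ^ ((7 / 2 : ℝ) - 1) := by
  rw [Real.sqrt_eq_rpow, ← Real.rpow_natCast, ← Real.rpow_add hy]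
  norm_num

lemma integrable_m2 {c : ℝ} (hc : 0 < c) :
    IntegrableOn (fun y : ℝ => √y * y ^ 2 * rexp (-(c * y))) (Ioi 0) := by
  refine (integrable_of_gamma (a := 7 / 2) (by norm_num) hc).congr_fun (fun y hy => ?_)
    measurableSet_Ioi
  simp only
  rw [sqrt_mul_sq hy]

lemma integral_m2 {c : ℝ} (hc : 0 < c) :
    ∫ y in Ioi (0:ℝ), √y * y ^ 2 * rexp (-(c * y)) = 15 / 4 / c ^ 2 * M1 c := by
  have h1 : ∫ y in Ioi (0:ℝ), √y * y ^ 2 * rexp (-(c * y)) =
      (1 / c) ^ (7 / 2 : ℝ) * Real.Gamma (7 / 2) := by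
    rw [← Real.integral_rpow_mul_exp_neg_mul_Ioi (by norm_num) hc]
    apply setIntegral_congr_fun measurableSet_Ioi
    intro y hy
    simp only
    rw [sqrt_mul_sq hy]
  rw [h1]
  unfold M1
  have g1 : Real.Gamma (7 / 2) = 5 / 2 * Real.Gamma (5 / 2) := by
    rw [show (7 / 2 : ℝ) = 5 / 2 + 1 by norm_num, Real.Gamma_add_one (by norm_num)]
  have g2 : Real.Gamma (5 / 2) = 3 / 2 * Real.Gamma (3 / 2) := by
    rw [show (5 / 2 : ℝ) = 3 / 2 + 1 by norm_num, Real.Gamma_add_one (by norm_num)]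
  have g3 : (1 / c) ^ (7 / 2 : ℝ) = (1 / c) ^ 2 * (1 / c) ^ (3 / 2 : ℝ) := by
    rw [← Real.rpow_natCast, ← Real.rpow_add (by positivity)]
    norm_num
  rw [g1, g2, g3]
  field_simp
  ring

/-- the combined bound for the average of half of the transform -/
def BX (lam b R c : ℝ) : ℝ :=
  (1 / b ^ 2) * √(2 * R) * (1 + 15 / 4 / c ^ 2 / (16 * R ^ 2)) +
    (R / 2 / b + 1 / b ^ 2) * rexp (-(lam * (R / 2))) * √(3 * R) *
      (1 + 15 / 4 / c ^ 2 / (4 * R ^ 2)) +
    1 / √R * (1 / (b * lam ^ 2) + 1 / (b ^ 2 * lam))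

theorem avgX_bound {lam κ ε R : ℝ} (hl : 0 < lam) (hκ : 0 < κ) (hε : ε = 1 ∨ ε = -1) (hR : 0 < R) :
    IntervalIntegrable (fun t : ℝ =>
      (((lam ^ 2 * t * rexp (-(lam * t))) : ℝ) : ℂ) * XK κ (R + ε * t)) volume 0 (R / 2) ∧
    ‖∫ t in (0:ℝ)..(R / 2), (((lam ^ 2 * t * rexp (-(lam * t))) : ℝ) : ℂ) * XK κ (R + ε * t)‖ ≤
      2 * lam ^ 2 * M1 (2 * π * κ) * BX lam ‖bet lam κ ε‖ R (2 * π * κ) := by
  set c : ℝ := 2 * π * κ with hc
  have hcpos : 0 < c := by positivity
  set T : ℝ := R / 2 with hT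
  have hT0 : 0 < T := by positivity
  set β := bet lam κ ε with hβ
  have hβre : β.re = lam := bet_re _ _ _
  have hβ0 : β ≠ 0 := by
    intro h
    rw [h] at hβre
    simp at hβre
    linarith
  have hb : 0 < ‖β‖ := norm_pos_iff.mpr hβ0
  have hexpn : ∀ t : ℝ, ‖Complex.exp (-β * t)‖ = rexp (-(lam * t)) := by
    intro t
    rw [Complex.norm_exp]
    congr 1
    simp [hβre]
  let K : ℂ := -2 * Complex.I * (lam : ℂ) ^ 2 * Complex.exp (2 * π * κ * R * Complex.I)
  let F : ℝ → ℝ → ℂ := fun t y => ((t : ℂ) * Complex.exp (-β * t)) *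
    (ad (R + ε * t) y * ((rexp (-(c * y)) : ℝ) : ℂ))
  have h0 : ∀ t : ℝ, (((lam ^ 2 * t * rexp (-(lam * t))) : ℝ) : ℂ) * XK κ (R + ε * t) =
      K * ∫ y in Ioi (0:ℝ), F t y := by
    intro t
    simp only [K, F]
    rw [integral_const_mul]
    unfold XK
    have e1 : Complex.exp (2 * π * κ * ((R + ε * t : ℝ) : ℂ) * Complex.I) * ((rexp (-(lam * t)) : ℝ) : ℂ) =
        Complex.exp (2 * π * κ * R * Complex.I) * Complex.exp (-β * t) := by
      rw [Complex.ofReal_exp, ← Complex.exp_add, ← Complex.exp_add]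
      congr 1
      rw [hβ]
      unfold bet
      push_cast
      ring
    have e2 : (((lam ^ 2 * t * rexp (-(lam * t))) : ℝ) : ℂ) = (lam : ℂ) ^ 2 * t * ((rexp (-(lam * t)) : ℝ) : ℂ) := by
      push_cast
      ring
    rw [e2]
    calc (lam : ℂ) ^ 2 * t * ((rexp (-(lam * t)) : ℝ) : ℂ) *
          (-2 * Complex.I * Complex.exp (2 * π * κ * ((R + ε * t : ℝ) : ℂ) * Complex.I) *
          ∫ y in Ioi (0 : ℝ), ad (R + ε * t) y * ((rexp (-(2 * π * κ * y)) : ℝ) : ℂ))
        = (lam : ℂ) ^ 2 * t * (-2 * Complex.I) *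
          (Complex.exp (2 * π * κ * ((R + ε * t : ℝ) : ℂ) * Complex.I) * ((rexp (-(lam * t)) : ℝ) : ℂ)) *
          ∫ y in Ioi (0 : ℝ), ad (R + ε * t) y * ((rexp (-(2 * π * κ * y)) : ℝ) : ℂ) := by ring
      _ = _ := by rw [e1]; ring
  have h1 : ∫ t in (0:ℝ)..T, (((lam ^ 2 * t * rexp (-(lam * t))) : ℝ) : ℂ) * XK κ (R + ε * t) =
      K * ∫ t in (0:ℝ)..T, ∫ y in Ioi (0:ℝ), F t y := by
    rw [← intervalIntegral.integral_const_mul]
    apply intervalIntegral.integral_congr
    intro t _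
    exact h0 t
  have hF : Integrable (Function.uncurry F) ((volume.restrict (Ioc 0 T)).prod
      (volume.restrict (Ioi (0:ℝ)))) := by
    have hg : IntegrableOn (fun y : ℝ => (1 + y ^ 2 + 2 * (R + T) * y) * rexp (-(c * y))) (Ioi 0) := by
      have hb : IntegrableOn (fun y : ℝ => y ^ 0 * rexp (-(c * y)) +
          y ^ 2 * rexp (-(c * y)) + 2 * (R + T) * (y ^ 1 * rexp (-(c * y)))) (Ioi 0) := by
        exact ((integrableOn_pow_mul_exp hcpos 0).add (integrableOn_pow_mul_exp hcpos 2)).add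
          ((integrableOn_pow_mul_exp hcpos 1).const_mul _)
      refine hb.congr_fun (fun y _ => ?_) measurableSet_Ioi
      simp only
      ring
    have hconst : IntegrableOn (fun _ : ℝ => T) (Ioc 0 T) := by
      exact integrableOn_const (by simp) (by simp)
    have hprod := Integrable.mul_prod hconst hg
    refine hprod.mono' ?_ ?_
    · apply Measurable.aestronglyMeasurable
      simp only [F, Function.uncurry, ad, zb]
      fun_prop
    · rw [Measure.prod_restrict, ae_restrict_iff' (measurableSet_Ioc.prod measurableSet_Ioi)]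
      filter_upwards with p hp
      have hp1 : p.1 ∈ Ioc 0 T := hp.1
      have hp2 : (0:ℝ) < p.2 := hp.2
      simp only [Function.uncurry, F]
      rw [norm_mul, norm_mul, norm_mul, hexpn, Complex.norm_real, Complex.norm_real,
        Real.norm_of_nonneg hp1.1.le, Real.norm_of_nonneg (Real.exp_pos _).le]
      have hr : 0 ≤ R + ε * p.1 ∧ R + ε * p.1 ≤ R + T := by
        rcases hε with h | h <;> rw [h] <;> constructor <;> linarith [hp1.1, hp1.2]
      have h2 : ‖ad (R + ε * p.1) p.2‖ ≤ 1 + p.2 ^ 2 + 2 * (R + T) * p.2 := by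
        refine (norm_ad_le' hr.1 hp2.le).trans ?_
        nlinarith [hr.2]
      have h3 : rexp (-(lam * p.1)) ≤ 1 := by
        rw [Real.exp_le_one_iff]
        nlinarith [hp1.1]
      have h4 : p.1 * rexp (-(lam * p.1)) ≤ T * 1 :=
        mul_le_mul hp1.2 h3 (Real.exp_pos _).le hT0.le
      rw [mul_one] at h4
      apply mul_le_mul h4 _ (by positivity) hT0.le
      exact mul_le_mul_of_nonneg_right h2 (Real.exp_pos _).le
  have hswap : ∫ t in (0:ℝ)..T, ∫ y in Ioi (0:ℝ), F t y =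
      ∫ y in Ioi (0:ℝ), ((rexp (-(c * y)) : ℝ) : ℂ) * JJ lam κ ε R T y := by
    rw [intervalIntegral.integral_of_le hT0.le, integral_integral_swap hF]
    apply setIntegral_congr_fun measurableSet_Ioi
    intro y _
    simp only
    unfold JJ
    rw [← intervalIntegral.integral_of_le hT0.le, ← intervalIntegral.integral_const_mul]
    apply intervalIntegral.integral_congr
    intro t _
    simp only [F]
    ring
  constructor
  · rw [intervalIntegrable_iff_integrableOn_Ioc_of_le hT0.le]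
    simp_rw [h0]
    exact (hF.integral_prod_left).const_mul K
  rw [h1, hswap, norm_mul]
  have hK : ‖K‖ = 2 * lam ^ 2 := by
    simp only [K]
    have : (2 * π * κ * R * Complex.I : ℂ) = ((2 * π * κ * R : ℝ) : ℂ) * Complex.I := by push_cast; ring
    rw [this, norm_mul, norm_mul, norm_mul, Complex.norm_exp_ofReal_mul_I]
    simp
  rw [hK]
  set b := ‖β‖ with hbdef
  -- bounding function
  let g : ℝ → ℝ := fun y =>
    ((1 / b ^ 2) * √(2 * R) + (T / b + 1 / b ^ 2) * rexp (-(lam * T)) * √(3 * R) +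
      1 / √R * (1 / (b * lam ^ 2) + 1 / (b ^ 2 * lam))) * (√y * rexp (-(c * y))) +
    ((1 / b ^ 2) * √(2 * R) / (16 * R ^ 2) +
      (T / b + 1 / b ^ 2) * rexp (-(lam * T)) * √(3 * R) / (4 * R ^ 2)) *
      (√y * y ^ 2 * rexp (-(c * y)))
  have hgint : IntegrableOn g (Ioi 0) :=
    ((integrable_m1 hcpos).const_mul _).add ((integrable_m2 hcpos).const_mul _)
  have hle : ‖∫ y in Ioi (0:ℝ), ((rexp (-(c * y)) : ℝ) : ℂ) * JJ lam κ ε R T y‖ ≤
      ∫ y in Ioi (0:ℝ), g y := by
    apply norm_integral_le_of_norm_le hgint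
    rw [ae_restrict_iff' measurableSet_Ioi]
    filter_upwards with y hy
    have hy' : (0:ℝ) < y := hy
    rw [norm_mul, Complex.norm_real, Real.norm_of_nonneg (Real.exp_pos _).le]
    have hJ := JJ_bound (κ := κ) hl hε hR hT0.le (le_of_eq hT) hy'
    rw [← hβ, ← hbdef] at hJ
    have ha0 : ‖ad R y‖ ≤ √(2 * R) * √y * (1 + y ^ 2 / (16 * R ^ 2)) := by
      have := norm_ad_le hR hy'.le
      rwa [Real.sqrt_mul (by positivity)] at this
    have ha1 : ‖ad (R + ε * T) y‖ ≤ √(3 * R) * √y * (1 + y ^ 2 / (4 * R ^ 2)) := by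
      have hr : R / 2 ≤ R + ε * T ∧ R + ε * T ≤ 3 * R / 2 := by
        rcases hε with h | h <;> rw [h, hT] <;> constructor <;> linarith
      have h5 := norm_ad_le (r := R + ε * T) (y := y) (by linarith [hr.1]) hy'.le
      refine h5.trans ?_
      rw [← Real.sqrt_mul (by positivity)]
      apply mul_le_mul
      · apply Real.sqrt_le_sqrt
        nlinarith [hr.2]
      · have : 4 * R ^ 2 ≤ 16 * (R + ε * T) ^ 2 := by nlinarith [hr.1]
        gcongr
      · positivity
      · positivity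
    have hs : √(y / R) = √y * (1 / √R) := by
      rw [Real.sqrt_div hy'.le]
      ring
    rw [hs] at hJ
    have hpos1 : 0 ≤ 1 / b ^ 2 := by positivity
    have hpos2 : 0 ≤ (T / b + 1 / b ^ 2) * rexp (-(lam * T)) := by positivity
    have hJ2 : ‖JJ lam κ ε R T y‖ ≤ (1 / b ^ 2) * (√(2 * R) * √y * (1 + y ^ 2 / (16 * R ^ 2))) +
        (T / b + 1 / b ^ 2) * rexp (-(lam * T)) * (√(3 * R) * √y * (1 + y ^ 2 / (4 * R ^ 2))) +
        √y * (1 / √R) * (1 / (b * lam ^ 2) + 1 / (b ^ 2 * lam)) := by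
      refine hJ.trans ?_
      gcongr
    calc rexp (-(c * y)) * ‖JJ lam κ ε R T y‖ ≤ rexp (-(c * y)) * _ :=
          mul_le_mul_of_nonneg_left hJ2 (Real.exp_pos _).le
      _ = g y := by
        simp only [g]
        ring
  have hgval : ∫ y in Ioi (0:ℝ), g y = M1 c * BX lam b R c := by
    simp only [g]
    rw [integral_add ((integrable_m1 hcpos).const_mul _) ((integrable_m2 hcpos).const_mul _),
      integral_const_mul, integral_const_mul, integral_m1 hcpos, integral_m2 hcpos]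
    unfold BX
    rw [← hT]
    ring
  rw [hgval] at hle
  calc 2 * lam ^ 2 * ‖∫ y in Ioi (0:ℝ), ((rexp (-(c * y)) : ℝ) : ℂ) * JJ lam κ ε R T y‖
      ≤ 2 * lam ^ 2 * (M1 c * BX lam b R c) := by gcongr
    _ = _ := by ring

end Helper52.Circle
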