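import Mathlib
import Pool.Agent.Helper52.Circle.Theta

/-!
Lattice sums over the nonzero integer points of the plane of completely monotone functions of the
squared norm are bounded by the corresponding integrals.
-/

open MeasureTheory Set Real
open scoped ENNReal

noncomputable section

namespace Helper52.Circle

/-- lattice sum over the nonzero points -/
def LS (φ : ℝ → ℝ≥0∞) : ℝ≥0∞ := ∑' k : Fin 2 → ℤ, if k = 0 then 0 else φ (Q k)

/-- the lattice sum is bounded by the plane integral -/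
def Good (φ : ℝ → ℝ≥0∞) : Prop := LS φ ≤ ENNReal.ofReal π * ∫⁻ u in Ioi (0 : ℝ), φ u

/-- the Gamma integral as a lower Lebesgue integral -/
lemma lintegral_gamma {a r : ℝ} (ha : 0 < a) (hr : 0 < r) :
    ∫⁻ t in Ioi (0 : ℝ), ENNReal.ofReal (t ^ (a - 1) * rexp (-(r * t))) =
      ENNReal.ofReal ((1 / r) ^ a * Real.Gamma a) := by
  have h := Real.integral_rpow_mul_exp_neg_mul_Ioi ha hr
  have hpos : 0 < (1 / r) ^ a * Real.Gamma a :=
    mul_pos (Real.rpow_pos_of_pos (by positivity) _) (Real.Gamma_pos_of_pos ha)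
  have hint : IntegrableOn (fun t => t ^ (a - 1) * rexp (-(r * t))) (Ioi 0) := by
    by_contra hcon
    rw [integral_undef hcon] at h
    linarith
  rw [← h, ofReal_integral_eq_lintegral_ofReal hint]
  rw [Filter.EventuallyLE, ae_restrict_iff' measurableSet_Ioi]
  filter_upwards with t ht
  have : (0:ℝ) < t := ht
  simp only [Pi.zero_apply]
  positivity

lemma lintegral_exp {r : ℝ} (hr : 0 < r) :
    ∫⁻ t in Ioi (0 : ℝ), ENNReal.ofReal (rexp (-(r * t))) = ENNReal.ofReal (1 / r) := by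
  have := lintegral_gamma (a := 1) one_pos hr
  simpa using this

lemma good_exp {s : ℝ} (hs : 0 < s) : Good (fun u => ENNReal.ofReal (rexp (-(s * u)))) := by
  unfold Good
  rw [lintegral_exp hs, ← ENNReal.ofReal_mul Real.pi_pos.le]
  have h1 : ∑' k : Fin 2 → ℤ, ENNReal.ofReal (rexp (-(s * Q k))) =
      ENNReal.ofReal (th (s / π) ^ 2) := by
    have h := hasSum_exp_Q hs
    rw [← h.tsum_eq, ENNReal.ofReal_tsum_of_nonneg (fun _ => (Real.exp_pos _).le) h.summable]
    apply tsum_congr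
    intro k
    congr 2
    ring
  have h2 := ENNReal.tsum_eq_add_tsum_ite (f := fun k : Fin 2 → ℤ =>
    ENNReal.ofReal (rexp (-(s * Q k)))) (0 : Fin 2 → ℤ)
  rw [h1] at h2
  have h3 : th (s / π) ^ 2 ≤ 1 + π * (1 / s) := by
    have := th_sq_le (x := s / π) (by positivity)
    convert this using 2
    field_simp
  have h4 : ENNReal.ofReal (rexp (-(s * Q 0))) = 1 := by simp [Q_zero]
  rw [h4] at h2
  have h5 : 1 + LS (fun u => ENNReal.ofReal (rexp (-(s * u)))) ≤ 1 + ENNReal.ofReal (π * (1 / s)) := by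
    have h2' : ENNReal.ofReal (th (s / π) ^ 2) =
        1 + LS (fun u => ENNReal.ofReal (rexp (-(s * u)))) := by
      rw [h2]
      congr 1
      unfold LS
      apply tsum_congr
      intro k
      split_ifs <;> rfl
    rw [← h2', ← ENNReal.ofReal_one, ← ENNReal.ofReal_add one_pos.le (by positivity)]
    exact ENNReal.ofReal_le_ofReal h3
  exact (ENNReal.add_le_add_iff_left ENNReal.one_ne_top).mp h5

lemma Good.const_mul {φ : ℝ → ℝ≥0∞} (h : Good φ) (hm : Measurable φ) (a : ℝ≥0∞) :
    Good (fun u => a * φ u) := by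
  unfold Good at *
  have h1 : LS (fun u => a * φ u) = a * LS φ := by
    unfold LS
    rw [← ENNReal.tsum_mul_left]
    apply tsum_congr
    intro k
    split_ifs <;> simp
  rw [h1, lintegral_const_mul _ hm]
  calc a * LS φ ≤ a * (ENNReal.ofReal π * ∫⁻ u in Ioi (0 : ℝ), φ u) := by gcongr
    _ = _ := by ring

lemma good_lintegral {μ : Measure ℝ} [SFinite μ] (g : ℝ → ℝ → ℝ≥0∞)
    (hg : Measurable (Function.uncurry g)) (h : ∀ᵐ s ∂μ, Good (g s)) :
    Good (fun u => ∫⁻ s, g s u ∂μ) := by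
  unfold Good
  have h1 : LS (fun u => ∫⁻ s, g s u ∂μ) = ∫⁻ s, LS (g s) ∂μ := by
    unfold LS
    rw [lintegral_tsum]
    · apply tsum_congr
      intro k
      split_ifs <;> simp
    · intro k
      split_ifs
      · exact aemeasurable_const
      · exact (hg.comp (measurable_id.prodMk measurable_const)).aemeasurable
  rw [h1, lintegral_lintegral_swap (μ := volume.restrict (Ioi (0:ℝ))) (ν := μ)
    (f := fun u s => g s u) (hg.comp measurable_swap).aemeasurable]
  rw [← lintegral_const_mul]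
  · exact lintegral_mono_ae h
  · exact Measurable.lintegral_prod_right' (f := fun p : ℝ × ℝ => g p.1 p.2) hg

lemma LS_congr {φ ψ : ℝ → ℝ≥0∞} (h : ∀ u, 0 < u → φ u = ψ u) : LS φ = LS ψ := by
  unfold LS
  apply tsum_congr
  intro k
  split_ifs with hk
  · rfl
  · exact h _ (lt_of_lt_of_le one_pos (one_le_Q hk))

lemma LS_mono {φ ψ : ℝ → ℝ≥0∞} (h : ∀ u, 1 ≤ u → φ u ≤ ψ u) : LS φ ≤ LS ψ := by
  unfold LS
  apply ENNReal.tsum_le_tsum
  intro k
  split_ifs with hk
  · exact le_rfl
  · exact h _ (one_le_Q hk)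

lemma Good.congr {φ ψ : ℝ → ℝ≥0∞} (hφ : Good φ) (h : ∀ u, 0 < u → φ u = ψ u) : Good ψ := by
  unfold Good at *
  rw [← LS_congr h, ← setLIntegral_congr_fun measurableSet_Ioi (fun u hu => h u hu)]
  exact hφ

lemma lintegral_beta {p c : ℝ} (hp0 : 0 < p) (hp1 : p < 1) (hc : 0 < c) :
    ∫⁻ u in Ioi (0 : ℝ), ENNReal.ofReal (u ^ (-p) / (c + u)) =
      ENNReal.ofReal (Real.Gamma (1 - p) * Real.Gamma p * c ^ (-p)) := by
  have h1 : ∫⁻ u in Ioi (0 : ℝ), ENNReal.ofReal (u ^ (-p) / (c + u)) =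
      ∫⁻ u in Ioi (0 : ℝ), ∫⁻ σ in Ioi (0 : ℝ),
        ENNReal.ofReal (u ^ (-p)) * ENNReal.ofReal (rexp (-((c + u) * σ))) := by
    apply setLIntegral_congr_fun measurableSet_Ioi
    intro u hu
    have hu' : (0:ℝ) < u := hu
    simp only
    rw [lintegral_const_mul _ (by fun_prop), lintegral_exp (by linarith),
      ← ENNReal.ofReal_mul (by positivity), div_eq_mul_one_div]
  rw [h1, lintegral_lintegral_swap (by
    apply Measurable.aemeasurable
    unfold Function.uncurry
    fun_prop)]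
  have h2 : ∀ σ ∈ Ioi (0:ℝ), ∫⁻ u in Ioi (0 : ℝ),
        ENNReal.ofReal (u ^ (-p)) * ENNReal.ofReal (rexp (-((c + u) * σ))) =
        ENNReal.ofReal (Real.Gamma (1 - p)) *
        ENNReal.ofReal (σ ^ (p - 1) * rexp (-(c * σ))) := by
    intro σ hσ
    have hσ' : (0:ℝ) < σ := hσ
    have h3 : ∀ u ∈ Ioi (0:ℝ), ENNReal.ofReal (u ^ (-p)) * ENNReal.ofReal (rexp (-((c + u) * σ))) =
        ENNReal.ofReal (rexp (-(c * σ))) * ENNReal.ofReal (u ^ ((1 - p) - 1) * rexp (-(σ * u))) := by
      intro u hu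
      have hu' : (0:ℝ) < u := hu
      rw [← ENNReal.ofReal_mul (by positivity), ← ENNReal.ofReal_mul (by positivity)]
      congr 1
      have : rexp (-((c + u) * σ)) = rexp (-(c * σ)) * rexp (-(σ * u)) := by
        rw [← Real.exp_add]
        congr 1
        ring
      rw [this, show (1 - p) - 1 = -p by ring]
      ring
    rw [setLIntegral_congr_fun measurableSet_Ioi h3, lintegral_const_mul _
      (by fun_prop), lintegral_gamma (by linarith) hσ',
      ← ENNReal.ofReal_mul (by positivity),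
      ← ENNReal.ofReal_mul (Real.Gamma_pos_of_pos (by linarith)).le]
    congr 1
    rw [one_div, Real.inv_rpow hσ'.le, ← Real.rpow_neg hσ'.le, show -(1 - p) = p - 1 by ring]
    ring
  rw [setLIntegral_congr_fun measurableSet_Ioi h2, lintegral_const_mul _
      (by fun_prop), lintegral_gamma hp0 hc,
      ← ENNReal.ofReal_mul (Real.Gamma_pos_of_pos (by linarith)).le]
  congr 1
  rw [one_div, Real.inv_rpow hc.le, ← Real.rpow_neg hc.le]
  ring

/-- The lattice sum for the powers times a resolvent. -/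
theorem LS_beta_le {p c : ℝ} (hp0 : 0 < p) (hp1 : p < 1) (hc : 0 < c) :
    LS (fun u => ENNReal.ofReal (u ^ (-p) / (c + u))) ≤
      ENNReal.ofReal (π * (Real.Gamma (1 - p) * Real.Gamma p * c ^ (-p))) := by
  have hΓ : 0 < Real.Gamma p := Real.Gamma_pos_of_pos hp0
  let g : ℝ → ℝ → ℝ → ℝ≥0∞ := fun σ τ u =>
    ENNReal.ofReal (τ ^ (p - 1) * rexp (-(c * σ))) * ENNReal.ofReal (rexp (-((τ + σ) * u)))
  have hgood1 : ∀ σ : ℝ, 0 < σ → Good (fun u => ∫⁻ τ in Ioi (0:ℝ), g σ τ u) := by
    intro σ hσ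
    apply good_lintegral
    · simp only [g]
      unfold Function.uncurry
      fun_prop
    · rw [ae_restrict_iff' measurableSet_Ioi]
      filter_upwards with τ hτ
      have hτ' : (0:ℝ) < τ := hτ
      exact (good_exp (s := τ + σ) (by linarith)).const_mul (by fun_prop) _
  have hgood2 : Good (fun u => ∫⁻ σ in Ioi (0:ℝ), ∫⁻ τ in Ioi (0:ℝ), g σ τ u) := by
    apply good_lintegral (g := fun σ u => ∫⁻ τ in Ioi (0:ℝ), g σ τ u)
    · have hm : Measurable (fun q : (ℝ × ℝ) × ℝ => g q.1.1 q.2 q.1.2) := by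
        simp only [g]
        fun_prop
      exact Measurable.lintegral_prod_right' (f := fun q : (ℝ × ℝ) × ℝ => g q.1.1 q.2 q.1.2) hm
    · rw [ae_restrict_iff' measurableSet_Ioi]
      filter_upwards with σ hσ
      exact hgood1 σ hσ
  have heq : ∀ u : ℝ, 0 < u → ∫⁻ σ in Ioi (0:ℝ), ∫⁻ τ in Ioi (0:ℝ), g σ τ u =
      ENNReal.ofReal (Real.Gamma p) * ENNReal.ofReal (u ^ (-p) / (c + u)) := by
    intro u hu
    have h1 : ∀ σ ∈ Ioi (0:ℝ), ∫⁻ τ in Ioi (0:ℝ), g σ τ u =
        ENNReal.ofReal (u ^ (-p) * Real.Gamma p) * ENNReal.ofReal (rexp (-((c + u) * σ))) := by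
      intro σ hσ
      have h2 : ∀ τ ∈ Ioi (0:ℝ), g σ τ u = ENNReal.ofReal (rexp (-((c + u) * σ))) *
          ENNReal.ofReal (τ ^ (p - 1) * rexp (-(u * τ))) := by
        intro τ hτ
        have hτ' : (0:ℝ) < τ := hτ
        simp only [g]
        rw [← ENNReal.ofReal_mul (by positivity), ← ENNReal.ofReal_mul (by positivity)]
        congr 1
        have e1 : rexp (-((c + u) * σ)) = rexp (-(c * σ)) * rexp (-(u * σ)) := by
          rw [← Real.exp_add]
          congr 1
          ring
        have e2 : rexp (-((τ + σ) * u)) = rexp (-(u * τ)) * rexp (-(u * σ)) := by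
          rw [← Real.exp_add]
          congr 1
          ring
        rw [e1, e2]
        ring
      rw [setLIntegral_congr_fun measurableSet_Ioi h2, lintegral_const_mul _
        (by fun_prop), lintegral_gamma hp0 hu, mul_comm]
      congr 2
      rw [one_div, Real.inv_rpow hu.le, ← Real.rpow_neg hu.le]
    rw [setLIntegral_congr_fun measurableSet_Ioi h1, lintegral_const_mul _
        (by fun_prop), lintegral_exp (by linarith),
        ← ENNReal.ofReal_mul (by positivity), ← ENNReal.ofReal_mul hΓ.le]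
    congr 1
    ring
  have hgood3 := hgood2.congr heq
  unfold Good at hgood3
  rw [lintegral_const_mul _ (by fun_prop),
    lintegral_beta hp0 hp1 hc] at hgood3
  have h1 : LS (fun u => ENNReal.ofReal (Real.Gamma p) * ENNReal.ofReal (u ^ (-p) / (c + u))) =
      ENNReal.ofReal (Real.Gamma p) * LS (fun u => ENNReal.ofReal (u ^ (-p) / (c + u))) := by
    unfold LS
    rw [← ENNReal.tsum_mul_left]
    apply tsum_congr
    intro k
    split_ifs <;> simp
  rw [h1] at hgood3
  have h2 : ENNReal.ofReal π * (ENNReal.ofReal (Real.Gamma p) *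
      ENNReal.ofReal (Real.Gamma (1 - p) * Real.Gamma p * c ^ (-p))) =
      ENNReal.ofReal (Real.Gamma p) *
        ENNReal.ofReal (π * (Real.Gamma (1 - p) * Real.Gamma p * c ^ (-p))) := by
    rw [ENNReal.ofReal_mul Real.pi_pos.le]
    ring
  rw [h2] at hgood3
  exact (ENNReal.mul_le_mul_iff_right (by simpa using hΓ) ENNReal.ofReal_ne_top).mp hgood3

end Helper52.Circle
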