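import Mathlib
import Pool.Agent.Helper52.Circle.Average2
import Pool.Agent.Helper52.Circle.Lattice

/-!
The smoothed lattice point count and its evaluation through Poisson summation.
-/

open MeasureTheory Set Real Filter Topology
open scoped ENNReal

noncomputable section

namespace Helper52.Circle

/-- the Gamma kernel -/
def wk (lam t : ℝ) : ℝ := lam ^ 2 * t * rexp (-(lam * t))

lemma continuous_wk (lam : ℝ) : Continuous (wk lam) := by
  unfold wk
  fun_prop

lemma wk_nonneg (lam : ℝ) {t : ℝ} (ht : 0 ≤ t) : 0 ≤ wk lam t := by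
  unfold wk
  positivity

/-- the smoothed indicator -/
def fs (lam ε R : ℝ) (y : Fin 2 → ℝ) : ℝ :=
  ∫ t in (0:ℝ)..(R / 2), if nsq y ≤ (R + ε * t) ^ 2 then wk lam t else 0

/-- total mass -/
def HT (lam R : ℝ) : ℝ := ∫ t in (0:ℝ)..(R / 2), wk lam t

lemma measurable_ite_t (lam ε R s : ℝ) :
    Measurable (fun t : ℝ => if s ≤ (R + ε * t) ^ 2 then wk lam t else 0) := by
  apply Measurable.ite
  · exact measurableSet_le (by fun_prop) (by fun_prop)
  · exact (continuous_wk lam).measurable
  · fun_prop

lemma intervalIntegrable_ite_t (lam ε R s a b : ℝ) :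
    IntervalIntegrable (fun t : ℝ => if s ≤ (R + ε * t) ^ 2 then wk lam t else 0) volume a b := by
  have h := (continuous_wk lam).norm.intervalIntegrable (μ := volume) a b
  refine h.mono_fun (measurable_ite_t lam ε R s).aestronglyMeasurable ?_
  filter_upwards with t
  rw [norm_norm]
  split_ifs
  · exact le_rfl
  · rw [norm_zero]; exact norm_nonneg _

lemma continuous_nsq : Continuous nsq := by
  unfold nsq
  fun_prop

lemma continuous_fs (lam : ℝ) {ε : ℝ} (R : ℝ) (hε : ε = 1 ∨ ε = -1) :
    Continuous (fs lam ε R) := by
  rw [continuous_iff_continuousAt]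
  intro y₀
  unfold fs
  apply intervalIntegral.continuousAt_of_dominated_interval (bound := fun t => ‖wk lam t‖)
  · filter_upwards with y
    exact (measurable_ite_t lam ε R (nsq y)).aestronglyMeasurable
  · filter_upwards with y
    filter_upwards with t _
    split_ifs
    · exact le_rfl
    · rw [norm_zero]; exact norm_nonneg _
  · exact (continuous_wk lam).norm.intervalIntegrable _ _
  · have hfin : ({t : ℝ | (R + ε * t) ^ 2 = nsq y₀}).Finite := by
      have hsub : {t : ℝ | (R + ε * t) ^ 2 = nsq y₀} ⊆
          {ε * (√(nsq y₀) - R), ε * (-√(nsq y₀) - R)} := by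
        intro t ht
        simp only [Set.mem_ofPred_eq] at ht
        have h1 : √(nsq y₀) = |R + ε * t| := by rw [← ht, Real.sqrt_sq_eq_abs]
        have h3 : ε * ε = 1 := by rcases hε with h | h <;> rw [h] <;> norm_num
        simp only [Set.mem_insert_iff, Set.mem_singleton_iff]
        rcases abs_choice (R + ε * t) with h2 | h2
        · left
          rw [h1, h2]
          linear_combination (-t) * h3
        · right
          rw [h1, h2]
          linear_combination (-t) * h3
      exact Set.Finite.subset (by simp) hsub
    have hae : ∀ᵐ t : ℝ, (R + ε * t) ^ 2 ≠ nsq y₀ := by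
      rw [ae_iff]
      simp only [ne_eq, not_not]
      exact hfin.measure_zero _
    filter_upwards [hae] with t ht _
    rcases lt_or_gt_of_ne ht with h | h
    · -- nsq y₀ larger: the function vanishes near y₀
      have hev : ∀ᶠ y in 𝓝 y₀, (R + ε * t) ^ 2 < nsq y :=
        continuous_nsq.continuousAt.eventually (lt_mem_nhds h)
      have : (fun y => if nsq y ≤ (R + ε * t) ^ 2 then wk lam t else 0) =ᶠ[𝓝 y₀] fun _ => 0 := by
        filter_upwards [hev] with y hy
        rw [if_neg (not_le.mpr hy)]
      exact (continuousAt_const).congr this.symm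
    · have hev : ∀ᶠ y in 𝓝 y₀, nsq y < (R + ε * t) ^ 2 :=
        continuous_nsq.continuousAt.eventually (gt_mem_nhds h)
      have : (fun y => if nsq y ≤ (R + ε * t) ^ 2 then wk lam t else 0) =ᶠ[𝓝 y₀]
          fun _ => wk lam t := by
        filter_upwards [hev] with y hy
        rw [if_pos hy.le]
      exact (continuousAt_const).congr this.symm

lemma fs_zero (lam : ℝ) {ε R : ℝ} (hR : 0 < R) (hε : ε = 1 ∨ ε = -1) (y : Fin 2 → ℝ)
    (hy : ∃ i, 2 * R < |y i|) : fs lam ε R y = 0 := by
  obtain ⟨i, hi⟩ := hy
  have hn : (2 * R) ^ 2 < nsq y := by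
    have h1 : (2 * R) ^ 2 < (y i) ^ 2 := by
      rw [← sq_abs (y i)]
      exact pow_lt_pow_left₀ hi (by positivity) two_ne_zero
    have h2 : (y i) ^ 2 ≤ nsq y := by
      unfold nsq
      fin_cases i
      · simp only [Fin.zero_eta]; nlinarith [sq_nonneg (y 1)]
      · simp only [Fin.mk_one]; nlinarith [sq_nonneg (y 0)]
    linarith
  unfold fs
  have : ∀ t ∈ uIcc 0 (R / 2), (if nsq y ≤ (R + ε * t) ^ 2 then wk lam t else 0) = 0 := by
    intro t ht
    rw [uIcc_of_le (by positivity)] at ht
    rw [if_neg]
    intro hcon
    have h3 : 0 ≤ R + ε * t ∧ R + ε * t ≤ 2 * R := by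
      rcases hε with h | h <;> rw [h] <;> constructor <;> linarith [ht.1, ht.2]
    nlinarith [h3.1, h3.2]
  rw [intervalIntegral.integral_congr this]
  simp

/-- the Fourier coefficient of the smoothed indicator -/
lemma coeff_fs (lam : ℝ) {ε R : ℝ} (hR : 0 < R) (hε : ε = 1 ∨ ε = -1) (k : Fin 2 → ℤ) :
    ∫ y, chr k y * ((fs lam ε R y : ℝ) : ℂ) =
      ∫ t in (0:ℝ)..(R / 2), ((wk lam t : ℝ) : ℂ) * DK k (R + ε * t) := by
  let F : (Fin 2 → ℝ) → ℝ → ℂ := fun y t =>
    if nsq y ≤ (R + ε * t) ^ 2 then ((wk lam t : ℝ) : ℂ) * chr k y else 0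
  have h1 : ∀ y, chr k y * ((fs lam ε R y : ℝ) : ℂ) = ∫ t in Ioc 0 (R / 2), F y t := by
    intro y
    unfold fs
    rw [← intervalIntegral.integral_ofReal, ← intervalIntegral.integral_const_mul,
      intervalIntegral.integral_of_le (by positivity)]
    apply integral_congr_ae
    filter_upwards with t
    simp only [F]
    split_ifs
    · ring
    · simp
  have h2 : ∀ t, ∫ y, F y t = ((wk lam t : ℝ) : ℂ) * DK k (R + ε * t) := by
    intro t
    unfold DK
    rw [← integral_const_mul]
    apply integral_congr_ae
    filter_upwards with y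
    simp only [F]
    split_ifs
    · rfl
    · simp
  have hF : Integrable (Function.uncurry F) ((volume : Measure (Fin 2 → ℝ)).prod
      (volume.restrict (Ioc 0 (R / 2)))) := by
    have hg1 : Integrable ((Set.pi Set.univ (fun _ : Fin 2 => Icc (-(2 * R)) (2 * R))).indicator
        (fun _ : Fin 2 → ℝ => (1 : ℝ))) := by
      rw [integrable_indicator_iff (MeasurableSet.univ_pi (fun _ => measurableSet_Icc))]
      exact integrableOn_const (isCompact_univ_pi (fun _ => isCompact_Icc)).measure_lt_top.ne
        (by simp)
    have hg2 : IntegrableOn (fun t : ℝ => ‖wk lam t‖) (Ioc 0 (R / 2)) := by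
      have := (continuous_wk lam).norm.intervalIntegrable (μ := volume) 0 (R / 2)
      rwa [intervalIntegrable_iff_integrableOn_Ioc_of_le (by positivity)] at this
    have hprod := Integrable.mul_prod hg1 hg2
    refine hprod.mono' ?_ ?_
    · apply Measurable.aestronglyMeasurable
      simp only [F, Function.uncurry]
      apply Measurable.ite
      · apply measurableSet_le
        · exact continuous_nsq.measurable.comp measurable_fst
        · fun_prop
      · apply Measurable.mul
        · exact Complex.measurable_ofReal.comp ((continuous_wk lam).measurable.comp measurable_snd)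
        · exact (continuous_chr k).measurable.comp measurable_fst
      · fun_prop
    · have hrest : ((volume : Measure (Fin 2 → ℝ)).prod (volume.restrict (Ioc 0 (R / 2)))) =
          (((volume : Measure (Fin 2 → ℝ)).prod (volume : Measure ℝ)).restrict
            (Set.univ ×ˢ (Ioc 0 (R / 2)))) := by
        rw [← Measure.prod_restrict, Measure.restrict_univ]
      rw [hrest, ae_restrict_iff' (MeasurableSet.univ.prod measurableSet_Ioc)]
      filter_upwards with p hp
      have hp2 : p.2 ∈ Ioc 0 (R / 2) := hp.2
      simp only [F, Function.uncurry]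
      split_ifs with h
      · have hmem : p.1 ∈ Set.pi Set.univ (fun _ : Fin 2 => Icc (-(2 * R)) (2 * R)) := by
          intro i _
          by_contra hcon
          have hi : 2 * R < |p.1 i| := by
            by_contra h3
            exact hcon (abs_le.mp (not_lt.mp h3))
          have hn : (2 * R) ^ 2 < nsq p.1 := by
            have h1 : (2 * R) ^ 2 < (p.1 i) ^ 2 := by
              rw [← sq_abs (p.1 i)]
              exact pow_lt_pow_left₀ hi (by positivity) two_ne_zero
            have h2 : (p.1 i) ^ 2 ≤ nsq p.1 := by
              unfold nsq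
              fin_cases i
              · simp only [Fin.zero_eta]; nlinarith [sq_nonneg (p.1 1)]
              · simp only [Fin.mk_one]; nlinarith [sq_nonneg (p.1 0)]
            linarith
          have h3 : 0 ≤ R + ε * p.2 ∧ R + ε * p.2 ≤ 2 * R := by
            rcases hε with h | h <;> rw [h] <;> constructor <;> linarith [hp2.1, hp2.2]
          nlinarith [h3.1, h3.2]
        rw [Set.indicator_of_mem hmem, norm_mul, Complex.norm_real, one_mul]
        have : ‖chr k p.1‖ = 1 := by
          rw [chr_eq]
          have : (-(2 * (π:ℂ) * Complex.I * ∑ i, (k i : ℂ) * (p.1 i : ℂ))) =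
              ((-(2 * π * ∑ i, (k i : ℝ) * (p.1 i)) : ℝ) : ℂ) * Complex.I := by
            push_cast; ring
          rw [this, Complex.norm_exp_ofReal_mul_I]
        rw [this, mul_one]
      · rw [norm_zero]
        apply mul_nonneg
        · exact Set.indicator_nonneg (fun _ _ => zero_le_one) _
        · exact norm_nonneg _
  simp_rw [h1]
  rw [integral_integral_swap hF, intervalIntegral.integral_of_le (by positivity)]
  simp_rw [h2]

end Helper52.Circle
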