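import Mathlib
import Pool.Agent.Helper52.Circle.Main

/-!
Summation of the bounds over the dual lattice.
-/

open MeasureTheory Set Real Filter Topology
open scoped ENNReal

noncomputable section

namespace Helper52.Circle

/-- first coefficient -/
def C1 (lam R : ℝ) : ℝ := √(2 * R) * (1 + 0.006 / R ^ 2) +
  rexp (-(lam * (R / 2))) * √(3 * R) * (1 + 0.024 / R ^ 2) + 1 / (lam * √R)

/-- second coefficient -/
def C2 (lam R : ℝ) : ℝ := lam ^ 2 * (R / 2) * rexp (-(lam * (R / 2))) * √(3 * R) *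
  (1 + 0.024 / R ^ 2) + 1 / √R

lemma C1_nonneg {lam R : ℝ} (hl : 0 < lam) (hR : 0 < R) : 0 ≤ C1 lam R := by
  unfold C1
  positivity

lemma C2_nonneg {lam R : ℝ} (hl : 0 < lam) (hR : 0 < R) : 0 ≤ C2 lam R := by
  unfold C2
  positivity

lemma BX_le {lam b R c : ℝ} (hl : 0 < lam) (hb : 0 < b) (hR : 0 < R) (hc : 2 * π ≤ c) :
    lam ^ 2 * BX lam b R c ≤ lam ^ 2 / b ^ 2 * C1 lam R + C2 lam R / b := by
  have hπ : 3.14 < π := Real.pi_gt_d2
  have hc2 : 39.4 ≤ c ^ 2 := by nlinarith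
  have h1 : 15 / 4 / c ^ 2 / (16 * R ^ 2) ≤ 0.006 / R ^ 2 := by
    rw [div_div, div_div, div_le_div_iff₀ (by positivity) (by positivity)]
    nlinarith [sq_nonneg R, mul_le_mul_of_nonneg_right hc2 (sq_nonneg R)]
  have h2 : 15 / 4 / c ^ 2 / (4 * R ^ 2) ≤ 0.024 / R ^ 2 := by
    rw [div_div, div_div, div_le_div_iff₀ (by positivity) (by positivity)]
    nlinarith [sq_nonneg R, mul_le_mul_of_nonneg_right hc2 (sq_nonneg R)]
  unfold BX C1 C2
  have e1 : lam ^ 2 * ((1 / b ^ 2) * √(2 * R) * (1 + 15 / 4 / c ^ 2 / (16 * R ^ 2)) +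
    (R / 2 / b + 1 / b ^ 2) * rexp (-(lam * (R / 2))) * √(3 * R) *
      (1 + 15 / 4 / c ^ 2 / (4 * R ^ 2)) +
    1 / √R * (1 / (b * lam ^ 2) + 1 / (b ^ 2 * lam))) ≤
    lam ^ 2 * ((1 / b ^ 2) * √(2 * R) * (1 + 0.006 / R ^ 2) +
    (R / 2 / b + 1 / b ^ 2) * rexp (-(lam * (R / 2))) * √(3 * R) *
      (1 + 0.024 / R ^ 2) +
    1 / √R * (1 / (b * lam ^ 2) + 1 / (b ^ 2 * lam))) := by gcongr
  refine e1.trans (le_of_eq ?_)
  have hs : 0 < √R := Real.sqrt_pos.mpr hR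
  field_simp
  ring

/-- the termwise bound -/
def ek (lam R : ℝ) (q : ℝ) : ℝ :=
  1 / (√2 * π) * (C1 lam R * (lam ^ 2 / (4 * π ^ 2)) * (q ^ (-(3 / 4) : ℝ) / (lam ^ 2 / (4 * π ^ 2) + q)) +
    C2 lam R / π * (q ^ (-(1 / 4) : ℝ) / (1 + q)))

lemma M1_eq {q : ℝ} (hq : 0 < q) : 4 * M1 (2 * π * √q) = 1 / (√2 * π) * q ^ (-(3 / 4) : ℝ) := by
  unfold M1
  have g1 : Real.Gamma (3 / 2) = 1 / 2 * √π := by
    rw [show (3 / 2 : ℝ) = 1 / 2 + 1 by norm_num, Real.Gamma_add_one (by norm_num),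
      Real.Gamma_one_half_eq]
  have hπ := Real.pi_pos
  have e1 : (1 / (2 * π * √q)) ^ (3 / 2 : ℝ) = (1 / (2 * π)) ^ (3 / 2 : ℝ) * q ^ (-(3 / 4) : ℝ) := by
    rw [show 1 / (2 * π * √q) = (1 / (2 * π)) * (√q)⁻¹ by field_simp,
      Real.mul_rpow (by positivity) (by positivity), Real.sqrt_eq_rpow, ← Real.rpow_neg hq.le,
      ← Real.rpow_mul hq.le]
    norm_num
  have e2 : (1 / (2 * π)) ^ (3 / 2 : ℝ) = (1 / (2 * π)) * (√(2 * π))⁻¹ := by
    rw [show (3 / 2 : ℝ) = 1 + 1 / 2 by norm_num, Real.rpow_add (by positivity), Real.rpow_one,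
      ← Real.sqrt_eq_rpow, one_div, Real.sqrt_inv]
  rw [e1, e2, g1, Real.sqrt_mul (by norm_num)]
  have h2 : 0 < √(2:ℝ) := Real.sqrt_pos.mpr (by norm_num)
  have h3 : 0 < √π := Real.sqrt_pos.mpr hπ
  field_simp
  norm_num

lemma avgDK_bound {lam ε R : ℝ} (hl : 0 < lam) (hε : ε = 1 ∨ ε = -1) (hR : 0 < R)
    {k : Fin 2 → ℤ} (hk : k ≠ 0) :
    ‖∫ t in (0:ℝ)..(R / 2), ((wk lam t : ℝ) : ℂ) * DK k (R + ε * t)‖ ≤ ek lam R (Q k) := by
  have hQ := one_le_Q hk
  have hQ0 : 0 < Q k := by linarith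
  have hκ : 0 < √(Q k) := Real.sqrt_pos.mpr hQ0
  have hκ1 : 1 ≤ √(Q k) := Real.one_le_sqrt.mpr hQ
  have hπ := Real.pi_pos
  obtain ⟨hint, hbd⟩ := avgX_bound (κ := √(Q k)) hl hκ hε hR
  set Z : ℂ := ∫ t in (0:ℝ)..(R / 2), (((lam ^ 2 * t * rexp (-(lam * t))) : ℝ) : ℂ) *
    XK (√(Q k)) (R + ε * t) with hZ
  have h1 : ∫ t in (0:ℝ)..(R / 2), ((wk lam t : ℝ) : ℂ) * DK k (R + ε * t) =
      Z + (starRingEnd ℂ) Z := by
    have h2 : ∫ t in (0:ℝ)..(R / 2), ((wk lam t : ℝ) : ℂ) * DK k (R + ε * t) =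
        ∫ t in (0:ℝ)..(R / 2), ((((lam ^ 2 * t * rexp (-(lam * t))) : ℝ) : ℂ) *
          XK (√(Q k)) (R + ε * t) + (starRingEnd ℂ) ((((lam ^ 2 * t * rexp (-(lam * t))) : ℝ) : ℂ) *
          XK (√(Q k)) (R + ε * t))) := by
      apply intervalIntegral.integral_congr
      intro t ht
      rw [uIcc_of_le (by positivity)] at ht
      have h3 : 0 < R + ε * t := by
        rcases hε with h | h <;> rw [h] <;> linarith [ht.1, ht.2]
      simp only
      rw [DK_eq k h3.le, DF_eq hκ h3, map_mul, Complex.conj_ofReal]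
      unfold wk
      ring
    have hintc : IntervalIntegrable (fun t : ℝ => (starRingEnd ℂ)
        ((((lam ^ 2 * t * rexp (-(lam * t))) : ℝ) : ℂ) * XK (√(Q k)) (R + ε * t))) volume 0 (R / 2) := by
      rw [intervalIntegrable_iff] at hint ⊢
      exact (LinearIsometryEquiv.integrable_comp_iff Complex.conjLIE).mpr hint
    rw [h2, intervalIntegral.integral_add hint hintc]
    congr 1
    rw [hZ, intervalIntegral.integral_of_le (by positivity), intervalIntegral.integral_of_le (by positivity),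
      ← integral_conj]
  rw [h1]
  have h4 : ‖Z + (starRingEnd ℂ) Z‖ ≤ 2 * ‖Z‖ := by
    refine (norm_add_le _ _).trans ?_
    rw [RCLike.norm_conj]
    linarith
  refine h4.trans ?_
  set b := ‖bet lam (√(Q k)) ε‖ with hb
  have hε2 : ε ^ 2 = 1 := by rcases hε with h | h <;> rw [h] <;> norm_num
  have hb2 : b ^ 2 = lam ^ 2 + 4 * π ^ 2 * Q k := by
    rw [hb, norm_bet_sq hε2, mul_pow, Real.sq_sqrt hQ0.le]
    ring
  have hb0 : 0 < b := by
    have : 0 < b ^ 2 := by rw [hb2]; positivity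
    have hbn : 0 ≤ b := norm_nonneg _
    exact lt_of_le_of_ne hbn (fun h0 => by rw [← h0] at this; norm_num at this)
  have hc : 2 * π ≤ 2 * π * √(Q k) := by nlinarith
  have h5 : 2 * ‖Z‖ ≤ 4 * M1 (2 * π * √(Q k)) * (lam ^ 2 / b ^ 2 * C1 lam R + C2 lam R / b) := by
    have h6 := BX_le hl hb0 hR hc
    have h7 := mul_le_mul_of_nonneg_left h6 (M1_pos (c := 2 * π * √(Q k)) (by positivity)).le
    nlinarith
  refine h5.trans ?_
  rw [M1_eq hQ0]
  unfold ek
  rw [mul_assoc]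
  apply mul_le_mul_of_nonneg_left _ (by positivity)
  rw [mul_add]
  have hC1 := C1_nonneg hl hR
  have hC2 := C2_nonneg hl hR
  apply add_le_add
  · apply le_of_eq
    rw [hb2]
    field_simp
  · have h8 : 2 * π * √(Q k) ≤ b := by
      apply le_of_sq_le_sq _ hb0.le
      rw [hb2, mul_pow, Real.sq_sqrt hQ0.le]
      nlinarith [sq_nonneg lam]
    have h9 : C2 lam R / b ≤ C2 lam R / (2 * π * √(Q k)) := by gcongr
    have h10 : (Q k) ^ (-(3 / 4) : ℝ) = (Q k) ^ (-(1 / 4) : ℝ) * (√(Q k))⁻¹ := by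
      rw [Real.sqrt_eq_rpow, ← Real.rpow_neg hQ0.le, ← Real.rpow_add hQ0]
      norm_num
    have h11 : √(Q k) * √(Q k) = Q k := Real.mul_self_sqrt hQ0.le
    calc (Q k) ^ (-(3 / 4) : ℝ) * (C2 lam R / b)
        ≤ (Q k) ^ (-(3 / 4) : ℝ) * (C2 lam R / (2 * π * √(Q k))) := by gcongr
      _ = C2 lam R / π * ((Q k) ^ (-(1 / 4) : ℝ) / (2 * Q k)) := by
          rw [h10, ← h11]
          have : √(√(Q k) * √(Q k)) = √(Q k) := by rw [h11]
          rw [this]
          field_simp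
      _ ≤ C2 lam R / π * ((Q k) ^ (-(1 / 4) : ℝ) / (1 + Q k)) := by
          gcongr
          linarith

lemma Gamma_prod : Real.Gamma (1 / 4) * Real.Gamma (3 / 4) = π * √2 := by
  have h := Real.Gamma_mul_Gamma_one_sub (1 / 4)
  rw [show (1 : ℝ) - 1 / 4 = 3 / 4 by norm_num] at h
  rw [h, show π * (1 / 4) = π / 4 by ring, Real.sin_pi_div_four]
  have h2 : 0 < √(2:ℝ) := Real.sqrt_pos.mpr (by norm_num)
  field_simp
  rw [Real.sq_sqrt (by norm_num)]

/-- total error -/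
def EE (lam R : ℝ) : ℝ := √(π * lam / 2) * C1 lam R + C2 lam R

lemma LS_ek {lam R : ℝ} (hl : 0 < lam) (hR : 0 < R) :
    LS (fun u => ENNReal.ofReal (ek lam R u)) ≤ ENNReal.ofReal (EE lam R) := by
  have hC1 := C1_nonneg hl hR
  have hC2 := C2_nonneg hl hR
  have hπ := Real.pi_pos
  set c0 := lam ^ 2 / (4 * π ^ 2) with hc0
  have hc0p : 0 < c0 := by positivity
  have h2 : 0 < √(2:ℝ) := Real.sqrt_pos.mpr (by norm_num)
  have h22 : √(2:ℝ) * √2 = 2 := Real.mul_self_sqrt (by norm_num)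
  set A : ℝ := 1 / (√2 * π) * (C1 lam R * c0) with hA
  set B : ℝ := 1 / (√2 * π) * (C2 lam R / π) with hB
  have hA0 : 0 ≤ A := by positivity
  have hB0 : 0 ≤ B := by positivity
  have e1 : LS (fun u => ENNReal.ofReal (ek lam R u)) =
      LS (fun u => ENNReal.ofReal A * ENNReal.ofReal (u ^ (-(3 / 4) : ℝ) / (c0 + u)) +
        ENNReal.ofReal B * ENNReal.ofReal (u ^ (-(1 / 4) : ℝ) / (1 + u))) := by
    apply LS_congr
    intro u hu
    rw [← ENNReal.ofReal_mul hA0, ← ENNReal.ofReal_mul hB0, ← ENNReal.ofReal_add (by positivity)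
      (by positivity)]
    congr 1
    unfold ek
    rw [hA, hB, ← hc0]
    ring
  have e2 : LS (fun u => ENNReal.ofReal A * ENNReal.ofReal (u ^ (-(3 / 4) : ℝ) / (c0 + u)) +
        ENNReal.ofReal B * ENNReal.ofReal (u ^ (-(1 / 4) : ℝ) / (1 + u))) =
      ENNReal.ofReal A * LS (fun u => ENNReal.ofReal (u ^ (-(3 / 4) : ℝ) / (c0 + u))) +
      ENNReal.ofReal B * LS (fun u => ENNReal.ofReal (u ^ (-(1 / 4) : ℝ) / (1 + u))) := by
    unfold LS
    rw [← ENNReal.tsum_mul_left, ← ENNReal.tsum_mul_left, ← ENNReal.tsum_add]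
    apply tsum_congr
    intro k
    split_ifs <;> simp
  have e3 := LS_beta_le (p := 3 / 4) (c := c0) (by norm_num) (by norm_num) hc0p
  have e4 := LS_beta_le (p := 1 / 4) (c := 1) (by norm_num) (by norm_num) one_pos
  have g1 : Real.Gamma (1 - 3 / 4) * Real.Gamma (3 / 4) = π * √2 := by
    rw [show (1 : ℝ) - 3 / 4 = 1 / 4 by norm_num]
    exact Gamma_prod
  have g2 : Real.Gamma (1 - 1 / 4) * Real.Gamma (1 / 4) = π * √2 := by
    rw [show (1 : ℝ) - 1 / 4 = 3 / 4 by norm_num, mul_comm]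
    exact Gamma_prod
  rw [g1] at e3
  rw [g2] at e4
  rw [e1, e2]
  calc ENNReal.ofReal A * LS (fun u => ENNReal.ofReal (u ^ (-(3 / 4) : ℝ) / (c0 + u))) +
      ENNReal.ofReal B * LS (fun u => ENNReal.ofReal (u ^ (-(1 / 4) : ℝ) / (1 + u)))
      ≤ ENNReal.ofReal A * ENNReal.ofReal (π * (π * √2 * c0 ^ (-(3 / 4) : ℝ))) +
        ENNReal.ofReal B * ENNReal.ofReal (π * (π * √2 * 1 ^ (-(1 / 4) : ℝ))) := by
        gcongr
    _ = ENNReal.ofReal (EE lam R) := by
        rw [← ENNReal.ofReal_mul hA0, ← ENNReal.ofReal_mul hB0, ← ENNReal.ofReal_add (by positivity)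
          (by positivity)]
        congr 1
        unfold EE
        have hpow : c0 * c0 ^ (-(3 / 4) : ℝ) = √(lam / (2 * π)) := by
          have h3 : c0 * c0 ^ (-(3 / 4) : ℝ) = c0 ^ (1 / 4 : ℝ) := by
            nth_rewrite 1 [← Real.rpow_one c0]
            rw [← Real.rpow_add hc0p]
            norm_num
          have h4 : c0 = (lam / (2 * π)) ^ (2 : ℝ) := by
            rw [hc0]
            norm_cast
            rw [div_pow, mul_pow]
            norm_num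
          rw [h3, h4, ← Real.rpow_mul (by positivity), Real.sqrt_eq_rpow]
          norm_num
        have hsq : π * √(lam / (2 * π)) = √(π * lam / 2) := by
          rw [show π * lam / 2 = π ^ 2 * (lam / (2 * π)) by field_simp,
            Real.sqrt_mul (by positivity), Real.sqrt_sq hπ.le]
        rw [Real.one_rpow, mul_one]
        calc A * (π * (π * √2 * c0 ^ (-(3 / 4) : ℝ))) + B * (π * (π * √2))
            = C1 lam R * (π * (c0 * c0 ^ (-(3 / 4) : ℝ))) + C2 lam R := by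
              rw [hA, hB]
              field_simp
          _ = √(π * lam / 2) * C1 lam R + C2 lam R := by
              rw [hpow, hsq]
              ring

end Helper52.Circle
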