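import Mathlib
import Pool.Agent.Helper52.Circle.Sandwich

/-!
The explicit two thirds bound in the circle problem.
-/

open MeasureTheory Set Real Filter Topology
open scoped ENNReal

noncomputable section

namespace Helper52.Circle

lemma sum_bound (a : (Fin 2 → ℤ) → ℂ) (e : ℝ → ℝ) (E : ℝ) (hE0 : 0 ≤ E)
    (ha : ∀ k, k ≠ 0 → ‖a k‖ ≤ e (Q k)) (hE : LS (fun u => ENNReal.ofReal (e u)) ≤ ENNReal.ofReal E) :
    Summable a ∧ ‖(∑' k, a k) - a 0‖ ≤ E := by
  classical
  have hs : ∀ u : Finset (Fin 2 → ℤ), ∑ k ∈ u, (if k = 0 then 0 else ‖a k‖) ≤ E := by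
    intro u
    rw [← ENNReal.ofReal_le_ofReal_iff hE0, ENNReal.ofReal_sum_of_nonneg
      (fun k _ => by split_ifs; exacts [le_rfl, norm_nonneg _])]
    refine le_trans ?_ hE
    unfold LS
    refine le_trans ?_ (ENNReal.sum_le_tsum u)
    apply Finset.sum_le_sum
    intro k _
    split_ifs with hk
    · simp
    · exact ENNReal.ofReal_le_ofReal (ha k hk)
  have hnn : ∀ k, 0 ≤ (if k = 0 then 0 else ‖a k‖ : ℝ) := by
    intro k
    split_ifs
    · exact le_rfl
    · exact norm_nonneg _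
  have hsum : Summable (fun k => (if k = 0 then 0 else ‖a k‖ : ℝ)) := summable_of_sum_le hnn hs
  have hsum2 : Summable (fun k => (if k = 0 then 0 else a k : ℂ)) := by
    apply Summable.of_norm
    refine hsum.congr (fun k => ?_)
    split_ifs <;> simp
  have hsa : Summable a := by
    have h1 := hsum2.add (hasSum_ite_eq (0 : Fin 2 → ℤ) (a 0)).summable
    refine h1.congr (fun k => ?_)
    split_ifs with hk
    · rw [hk, zero_add]
    · rw [add_zero]
  refine ⟨hsa, ?_⟩
  rw [hsa.tsum_eq_add_tsum_ite 0, add_sub_cancel_left]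
  have h2 : ‖∑' k, (if k = 0 then 0 else a k : ℂ)‖ ≤ ∑' k, (if k = 0 then 0 else ‖a k‖ : ℝ) := by
    have h3 : Summable (fun k => ‖(if k = 0 then 0 else a k : ℂ)‖) := by
      refine hsum.congr (fun k => ?_)
      split_ifs <;> simp
    refine (norm_tsum_le_tsum_norm h3).trans (le_of_eq ?_)
    apply tsum_congr
    intro k
    split_ifs <;> simp
  exact h2.trans (hsum.tsum_le_of_sum_le hs)

lemma wk_moment (lam : ℝ) (hl : 0 < lam) (n : ℕ) {T : ℝ} (hT : 0 ≤ T) :
    ∫ t in (0:ℝ)..T, wk lam t * t ^ n ≤ ((n + 1).factorial : ℝ) / lam ^ n := by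
  rw [intervalIntegral.integral_of_le hT]
  have h1 : ∀ t ∈ Ioi (0:ℝ), wk lam t * t ^ n = lam ^ 2 * (t ^ (((n : ℝ) + 2) - 1) * rexp (-(lam * t))) := by
    intro t ht
    have ht' : (0:ℝ) < t := ht
    unfold wk
    rw [show ((n : ℝ) + 2) - 1 = ((n + 1 : ℕ) : ℝ) by push_cast; ring, Real.rpow_natCast]
    ring
  have hint : IntegrableOn (fun t => wk lam t * t ^ n) (Ioi 0) := by
    have h2 : IntegrableOn (fun t : ℝ => lam ^ 2 * (t ^ (((n : ℝ) + 2) - 1) * rexp (-(lam * t)))) (Ioi 0) :=
      (integrable_of_gamma (a := (n : ℝ) + 2) (by positivity) hl).const_mul _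
    exact h2.congr_fun (fun t ht => (h1 t ht).symm) measurableSet_Ioi
  have h3 : ∫ t in Ioc 0 T, wk lam t * t ^ n ≤ ∫ t in Ioi (0:ℝ), wk lam t * t ^ n := by
    apply setIntegral_mono_set hint
    · rw [EventuallyLE, ae_restrict_iff' measurableSet_Ioi]
      filter_upwards with t ht
      have ht' : (0:ℝ) < t := ht
      simp only [Pi.zero_apply]
      exact mul_nonneg (wk_nonneg lam ht'.le) (by positivity)
    · exact (Ioc_subset_Ioi_self).eventuallyLE
  refine h3.trans (le_of_eq ?_)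
  rw [setIntegral_congr_fun measurableSet_Ioi h1, integral_const_mul,
    Real.integral_rpow_mul_exp_neg_mul_Ioi (by positivity) hl]
  have hΓ : Real.Gamma ((n : ℝ) + 2) = ((n + 1).factorial : ℝ) := by
    rw [← Real.Gamma_nat_eq_factorial]
    congr 1
    push_cast
    ring
  rw [hΓ, show ((n : ℝ) + 2) = ((n + 2 : ℕ) : ℝ) by push_cast; ring, Real.rpow_natCast]
  have h4 : (1 / lam) ^ (n + 2) * lam ^ n * lam ^ 2 = 1 := by
    rw [one_div, inv_pow, mul_assoc, ← pow_add]
    exact inv_mul_cancel₀ (by positivity)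
  rw [eq_div_iff (by positivity)]
  calc lam ^ 2 * ((1 / lam) ^ (n + 2) * ((n + 1).factorial : ℝ)) * lam ^ n
      = ((1 / lam) ^ (n + 2) * lam ^ n * lam ^ 2) * ((n + 1).factorial : ℝ) := by ring
    _ = ((n + 1).factorial : ℝ) := by rw [h4, one_mul]

lemma HT_eq (lam R : ℝ) : HT lam R = 1 - (1 + lam * (R / 2)) * rexp (-(lam * (R / 2))) := by
  unfold HT wk
  have h1 : ∀ t ∈ uIcc 0 (R / 2), HasDerivAt (fun t : ℝ => -(1 + lam * t) * rexp (-(lam * t)))
      (lam ^ 2 * t * rexp (-(lam * t))) t := by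
    intro t _
    have e1 : HasDerivAt (fun t : ℝ => rexp (-(lam * t))) (rexp (-(lam * t)) * (-lam)) t := by
      have h2 : HasDerivAt (fun t : ℝ => -(lam * t)) (-lam) t := by
        exact (((hasDerivAt_id t).const_mul lam).neg).congr_deriv (by ring)
      exact h2.exp
    have e2 : HasDerivAt (fun t : ℝ => -(1 + lam * t)) (-lam) t := by
      exact ((((hasDerivAt_id t).const_mul lam).const_add 1).neg).congr_deriv (by ring)
    refine (e2.mul e1).congr_deriv ?_
    ring
  rw [intervalIntegral.integral_eq_sub_of_hasDerivAt h1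
    (Continuous.intervalIntegrable (by fun_prop) _ _)]
  simp
  ring

/-- the k = 0 term -/
lemma DK_zero {r : ℝ} (hr : 0 ≤ r) : DK 0 r = ((π * r ^ 2 : ℝ) : ℂ) := by
  rw [DK_eq 0 hr, Q_zero, Real.sqrt_zero]
  exact DF_zero hr

/-- Poisson summation for the smoothed count, as an inequality -/
theorem smooth_count {lam ε R : ℝ} (hl : 0 < lam) (hε : ε = 1 ∨ ε = -1) (hR : 0 < R) :
    |(∑' v : Fin 2 → ℤ, fs lam ε R (toR v)) - ∫ t in (0:ℝ)..(R / 2), wk lam t * (π * (R + ε * t) ^ 2)|
      ≤ EE lam R := by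
  have hEE : 0 ≤ EE lam R := by
    have := C1_nonneg hl hR
    have := C2_nonneg hl hR
    unfold EE
    positivity
  set a : (Fin 2 → ℤ) → ℂ := fun k => ∫ y, chr k y * ((fs lam ε R y : ℝ) : ℂ) with ha
  have ha2 : ∀ k, a k = ∫ t in (0:ℝ)..(R / 2), ((wk lam t : ℝ) : ℂ) * DK k (R + ε * t) :=
    fun k => coeff_fs lam hR hε k
  obtain ⟨hsum, hbound⟩ := sum_bound a (ek lam R) (EE lam R) hEE
    (fun k hk => by rw [ha2]; exact avgDK_bound hl hε hR hk) (LS_ek hl hR)
  have hP := poisson (fun y => ((fs lam ε R y : ℝ) : ℂ))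
    (Complex.continuous_ofReal.comp (continuous_fs lam R hε)) (2 * R)
    (fun y hy => by rw [fs_zero lam hR hε y hy]; simp) hsum
  rw [hP.tsum_eq] at hbound
  have ha0 : a 0 = ((∫ t in (0:ℝ)..(R / 2), wk lam t * (π * (R + ε * t) ^ 2) : ℝ) : ℂ) := by
    rw [ha2, ← intervalIntegral.integral_ofReal]
    apply intervalIntegral.integral_congr
    intro t ht
    rw [uIcc_of_le (by positivity)] at ht
    have h3 : 0 ≤ R + ε * t := by
      rcases hε with h | h <;> rw [h] <;> linarith [ht.1, ht.2]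
    simp only
    rw [DK_zero h3]
    push_cast
    ring
  rw [ha0, ← Complex.ofReal_tsum, ← Complex.ofReal_sub, Complex.norm_real, Real.norm_eq_abs] at hbound
  exact hbound

/-- the set of lattice points of the disk -/
lemma finite_disk (R : ℝ) : ({v : Fin 2 → ℤ | nsq (toR v) ≤ R ^ 2}).Finite := by
  apply (finite_box (d := Fin 2) |R|).subset
  intro v hv i
  simp only [Set.mem_ofPred_eq] at hv
  apply sq_le_sq.mp
  have h2 : ((v i : ℝ)) ^ 2 ≤ nsq (toR v) := by
    unfold nsq toR
    fin_cases i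
    · simp only [Fin.zero_eta]; nlinarith [sq_nonneg (v 1 : ℝ)]
    · simp only [Fin.mk_one]; nlinarith [sq_nonneg (v 0 : ℝ)]
  linarith

/-- the count -/
def NN (R : ℝ) : ℝ := ((finite_disk R).toFinset.card : ℝ)

lemma fs_nonneg {lam ε R : ℝ} (hR : 0 < R) (y : Fin 2 → ℝ) : 0 ≤ fs lam ε R y := by
  unfold fs
  apply intervalIntegral.integral_nonneg (by positivity)
  intro t ht
  split_ifs
  · exact wk_nonneg lam ht.1
  · exact le_rfl

lemma summable_fs {lam ε R : ℝ} (hR : 0 < R) (hε : ε = 1 ∨ ε = -1) :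
    Summable (fun v : Fin 2 → ℤ => fs lam ε R (toR v)) := by
  apply summable_of_ne_finset_zero (s := (finite_box (d := Fin 2) (2 * R)).toFinset)
  intro v hv
  apply fs_zero lam hR hε
  simp only [Set.Finite.mem_toFinset, Set.mem_ofPred_eq, not_forall, not_le] at hv
  exact hv

lemma upper_sandwich {lam R : ℝ} (hR : 0 < R) :
    NN R * HT lam R ≤ ∑' v : Fin 2 → ℤ, fs lam 1 R (toR v) := by
  have h1 : ∑ v ∈ (finite_disk R).toFinset, fs lam 1 R (toR v) ≤
      ∑' v : Fin 2 → ℤ, fs lam 1 R (toR v) :=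
    (summable_fs hR (Or.inl rfl)).sum_le_tsum _ (fun v _ => fs_nonneg hR _)
  refine le_trans (le_of_eq ?_) h1
  have h2 : ∀ v ∈ (finite_disk R).toFinset, fs lam 1 R (toR v) = HT lam R := by
    intro v hv
    simp only [Set.Finite.mem_toFinset, Set.mem_ofPred_eq] at hv
    unfold fs HT
    apply intervalIntegral.integral_congr
    intro t ht
    rw [uIcc_of_le (by positivity)] at ht
    simp only
    rw [if_pos]
    nlinarith [ht.1]
  rw [Finset.sum_congr rfl h2, Finset.sum_const, nsmul_eq_mul]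
  rfl

lemma lower_sandwich {lam R : ℝ} (hR : 0 < R) :
    ∑' v : Fin 2 → ℤ, fs lam (-1) R (toR v) ≤ NN R * HT lam R := by
  have h0 : ∀ v ∉ (finite_disk R).toFinset, fs lam (-1) R (toR v) = 0 := by
    intro v hv
    simp only [Set.Finite.mem_toFinset, Set.mem_ofPred_eq, not_le] at hv
    unfold fs
    have : ∀ t ∈ uIcc 0 (R / 2), (if nsq (toR v) ≤ (R + (-1) * t) ^ 2 then wk lam t else 0) = 0 := by
      intro t ht
      rw [uIcc_of_le (by positivity)] at ht
      rw [if_neg]
      intro hcon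
      nlinarith [ht.1, ht.2]
    rw [intervalIntegral.integral_congr this]
    simp
  rw [tsum_eq_sum h0]
  have h2 : ∀ v ∈ (finite_disk R).toFinset, fs lam (-1) R (toR v) ≤ HT lam R := by
    intro v _
    unfold fs HT
    apply intervalIntegral.integral_mono_on (by positivity) (intervalIntegrable_ite_t _ _ _ _ _ _)
      ((continuous_wk lam).intervalIntegrable _ _)
    intro t ht
    split_ifs
    · exact le_rfl
    · exact wk_nonneg lam ht.1
  refine (Finset.sum_le_sum h2).trans (le_of_eq ?_)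
  rw [Finset.sum_const, nsmul_eq_mul]
  rfl

/-- the general inequality with a free smoothing parameter -/
theorem count_ineq {lam R : ℝ} (hl : 0 < lam) (hR : 0 < R) :
    |NN R - π * R ^ 2| * HT lam R ≤ 4 * π * R / lam + 6 * π / lam ^ 2 + EE lam R := by
  have hπ := Real.pi_pos
  have hup := smooth_count (ε := 1) hl (Or.inl rfl) hR
  have hlo := smooth_count (ε := -1) hl (Or.inr rfl) hR
  have h1 := upper_sandwich (lam := lam) hR
  have h2 := lower_sandwich (lam := lam) hR
  have hT : 0 ≤ R / 2 := by positivity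
  have m1 := wk_moment lam hl 1 hT
  have m2 := wk_moment lam hl 2 hT
  have m2' : 0 ≤ ∫ t in (0:ℝ)..(R / 2), wk lam t * t ^ 2 := by
    apply intervalIntegral.integral_nonneg hT
    intro t ht
    exact mul_nonneg (wk_nonneg lam ht.1) (sq_nonneg t)
  have hexp : ∀ ε : ℝ, ∫ t in (0:ℝ)..(R / 2), wk lam t * (π * (R + ε * t) ^ 2) =
      π * R ^ 2 * HT lam R + 2 * π * R * ε * (∫ t in (0:ℝ)..(R / 2), wk lam t * t ^ 1) +
      π * ε ^ 2 * ∫ t in (0:ℝ)..(R / 2), wk lam t * t ^ 2 := by
    intro ε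
    unfold HT
    have hc := continuous_wk lam
    rw [← intervalIntegral.integral_const_mul, ← intervalIntegral.integral_const_mul,
      ← intervalIntegral.integral_const_mul, ← intervalIntegral.integral_add,
      ← intervalIntegral.integral_add]
    · apply intervalIntegral.integral_congr
      intro t _
      simp only
      ring
    · apply Continuous.intervalIntegrable; fun_prop
    · apply Continuous.intervalIntegrable; fun_prop
    · apply Continuous.intervalIntegrable; fun_prop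
    · apply Continuous.intervalIntegrable; fun_prop
  rw [hexp] at hup hlo
  set I1 := ∫ t in (0:ℝ)..(R / 2), wk lam t * t ^ 1 with hI1
  set I2 := ∫ t in (0:ℝ)..(R / 2), wk lam t * t ^ 2 with hI2
  have f1 : (((1 + 1).factorial : ℕ) : ℝ) = 2 := by norm_num [Nat.factorial]
  have f2 : (((2 + 1).factorial : ℕ) : ℝ) = 6 := by norm_num [Nat.factorial]
  rw [f1, pow_one] at m1
  rw [f2] at m2
  rw [abs_le] at hup hlo
  have hHT : 0 ≤ HT lam R := by
    unfold HT
    apply intervalIntegral.integral_nonneg hT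
    intro t ht
    exact wk_nonneg lam ht.1
  have k1 : 2 * π * R * I1 ≤ 4 * π * R / lam := by
    calc 2 * π * R * I1 ≤ 2 * π * R * (2 / lam) := by gcongr
      _ = 4 * π * R / lam := by ring
  have k2 : π * I2 ≤ 6 * π / lam ^ 2 := by
    calc π * I2 ≤ π * (6 / lam ^ 2) := by gcongr
      _ = 6 * π / lam ^ 2 := by ring
  have k3 : 0 ≤ π * I2 := by positivity
  have k4 : 0 ≤ 6 * π / lam ^ 2 := by positivity
  rw [← abs_of_nonneg hHT, ← abs_mul, abs_le]
  constructor
  · nlinarith [hlo.1, h2]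
  · nlinarith [hup.2, h1]

end Helper52.Circle
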