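import Mathlib
import Pool.Agent.Helper52.Circle.Final

/-!
Optimisation of the smoothing parameter and small radii.
-/

open Set Real

noncomputable section

namespace Helper52.Circle

lemma num_q3 {s R : ℝ} (hs0 : 0 < s) (hR0 : 0 < R) (hs3 : s ^ 3 = π * R) (hs2 : 5.38 ≤ s ^ 2) :
    √(2 * π * s) * (1 / (4 * s * √R)) ≤ 0.207 := by
  have hπ := Real.pi_pos
  have hπ2 : π < 3.1416 := Real.pi_lt_d4
  have hππ : π * π ≤ 9.87 := by nlinarith
  have h1 : √(2 * π * s) ≤ 0.207 * (4 * s * √R) := by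
    apply Real.sqrt_le_iff.mpr
    refine ⟨by positivity, ?_⟩
    rw [mul_pow, mul_pow, Real.sq_sqrt hR0.le]
    have h3 : 28.9 ≤ s ^ 4 := by
      have : s ^ 4 = s ^ 2 * s ^ 2 := by ring
      rw [this]
      nlinarith
    have h5 : π * (0.207 ^ 2 * ((4 * s) ^ 2 * R)) = 0.207 ^ 2 * 16 * (s * s ^ 4) := by
      linear_combination (-(0.207 ^ 2 * 16 * s ^ 2)) * hs3
    have h4 : π * (2 * π * s) ≤ π * (0.207 ^ 2 * ((4 * s) ^ 2 * R)) := by
      rw [h5]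
      have h6 : π * (2 * π * s) ≤ 19.74 * s := by
        calc π * (2 * π * s) = (π * π) * (2 * s) := by ring
          _ ≤ 9.87 * (2 * s) := by gcongr
          _ = 19.74 * s := by ring
      have h7 : 19.74 * s ≤ 0.207 ^ 2 * 16 * (s * s ^ 4) := by
        calc 19.74 * s ≤ 0.207 ^ 2 * 16 * (s * 28.9) := by norm_num; linarith
          _ ≤ _ := by gcongr
      exact h6.trans h7
    exact le_of_mul_le_mul_left h4 hπ
  rw [mul_one_div, div_le_iff₀ (by positivity)]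
  exact h1

lemma num_r3 {s R : ℝ} (hs0 : 0 < s) (hR0 : 0 < R) (hs3 : s ^ 3 = π * R) (hs2 : 5.38 ≤ s ^ 2) :
    2 * s ^ 2 * (0.006 / R ^ 2) ≤ 0.005 := by
  have hπ := Real.pi_pos
  have hπ2 : π < 3.1416 := Real.pi_lt_d4
  have hππ : π ^ 2 ≤ 9.87 := by nlinarith
  rw [← mul_div_assoc, div_le_iff₀ (by positivity)]
  have h2 : s ^ 6 = π ^ 2 * R ^ 2 := by
    calc s ^ 6 = (s ^ 3) ^ 2 := by ring
      _ = _ := by rw [hs3]; ring
  have h3 : 28.9 ≤ s ^ 4 := by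
    have : s ^ 4 = s ^ 2 * s ^ 2 := by ring
    rw [this]
    nlinarith
  have h4 : s ^ 2 * 28.9 ≤ π ^ 2 * R ^ 2 := by
    rw [← h2]
    calc s ^ 2 * 28.9 ≤ s ^ 2 * s ^ 4 := by gcongr
      _ = s ^ 6 := by ring
  have h5 : π ^ 2 * R ^ 2 ≤ 9.87 * R ^ 2 := by gcongr
  norm_num at h4 h5 ⊢
  linarith

lemma num_exp {x : ℝ} (hx1 : 18.5 ≤ x) : rexp (-x) * x ^ 3 ≤ 0.02 ∧ rexp (-x) * x ^ 2 ≤ 0.0011 := by
  have hx0 : 0 < x := by linarith
  set E : ℝ := rexp (-x) with hE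
  have hE0 : 0 < E := Real.exp_pos _
  have hEx8 : E * x ^ 8 ≤ 40320 := by
    have h1 := Real.pow_div_factorial_le_exp x hx0.le 8
    have h2 : E * rexp x = 1 := by rw [hE, ← Real.exp_add]; simp
    have h3 : ((8).factorial : ℝ) = 40320 := by norm_num [Nat.factorial]
    rw [h3, div_le_iff₀ (by norm_num)] at h1
    calc E * x ^ 8 ≤ E * (rexp x * 40320) := by gcongr
      _ = (E * rexp x) * 40320 := by ring
      _ = 40320 := by rw [h2]; ring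
  have hEx3 : E * x ^ 3 ≤ 0.02 := by
    have h1 : (18.5:ℝ) ^ 5 ≤ x ^ 5 := pow_le_pow_left₀ (by norm_num) hx1 5
    have h2 : E * x ^ 3 * 18.5 ^ 5 ≤ E * x ^ 3 * x ^ 5 := by gcongr
    have h3 : E * x ^ 3 * x ^ 5 = E * x ^ 8 := by ring
    rw [h3] at h2
    have h4 := h2.trans hEx8
    norm_num at h4 ⊢
    linarith
  refine ⟨hEx3, ?_⟩
  have h2 : E * x ^ 2 * 18.5 ≤ E * x ^ 2 * x := by gcongr
  have h3 : E * x ^ 2 * x = E * x ^ 3 := by ring
  rw [h3] at h2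
  norm_num at h2 hEx3 ⊢
  linarith

lemma num_s {R : ℝ} (hR : 4 ≤ R) : 0 < (π * R) ^ (1 / 3 : ℝ) ∧
    ((π * R) ^ (1 / 3 : ℝ)) ^ 3 = π * R ∧ 2.32 ≤ (π * R) ^ (1 / 3 : ℝ) := by
  have hR0 : 0 < R := by linarith
  have hπ := Real.pi_pos
  have hπ1 : 3.14 < π := Real.pi_gt_d2
  set s : ℝ := (π * R) ^ (1 / 3 : ℝ) with hs
  have hs0 : 0 < s := Real.rpow_pos_of_pos (by positivity) _
  have hs3 : s ^ 3 = π * R := by
    rw [hs, ← Real.rpow_natCast, ← Real.rpow_mul (by positivity)]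
    norm_num
  refine ⟨hs0, hs3, ?_⟩
  by_contra hcon
  push Not at hcon
  have h1 : s ^ 3 ≤ 2.32 ^ 3 := pow_le_pow_left₀ hs0.le hcon.le 3
  have h2 : 3.14 * 4 ≤ π * R := by gcongr
  norm_num at h1 h2
  linarith

/-- bound of the total error -/
lemma num_EE {s R : ℝ} (hR : 4 ≤ R) (hs0 : 0 < s) (hs3 : s ^ 3 = π * R) (hs2 : 5.38 ≤ s ^ 2) :
    EE (4 * s) R ≤ 2 * s ^ 2 + 0.712 + rexp (-(2 * s * R)) * (2.06 * (2 * s * R) ^ 2) := by
  have hR0 : 0 < R := by linarith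
  have hπ := Real.pi_pos
  have hq : π * (4 * s) / 2 = 2 * π * s := by ring
  have hxl : 4 * s * (R / 2) = 2 * s * R := by ring
  set E : ℝ := rexp (-(2 * s * R)) with hE
  have hE0 : 0 < E := Real.exp_pos _
  have q1 : √(2 * π * s) * √(2 * R) = 2 * s ^ 2 := by
    rw [← Real.sqrt_mul (by positivity), show 2 * π * s * (2 * R) = (2 * s ^ 2) ^ 2 by
      linear_combination (-4 * s) * hs3, Real.sqrt_sq (by positivity)]
  have q2 : √(2 * π * s) * √(3 * R) ≤ 2.45 * s ^ 2 := by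
    rw [← Real.sqrt_mul (by positivity)]
    apply Real.sqrt_le_iff.mpr
    refine ⟨by positivity, ?_⟩
    have h1 : 2 * π * s * (3 * R) = 6 * s ^ 4 := by linear_combination (-6 * s) * hs3
    have h2 : (2.45 * s ^ 2) ^ 2 = 6.0025 * s ^ 4 := by ring
    rw [h1, h2]
    have : 0 < s ^ 4 := by positivity
    linarith
  have q3 : √(2 * π * s) * (1 / (4 * s * √R)) ≤ 0.207 := num_q3 hs0 hR0 hs3 hs2
  have r1 : 1 / √R ≤ 0.5 := by
    rw [div_le_iff₀ (Real.sqrt_pos.mpr hR0)]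
    have : 2 ≤ √R := Real.le_sqrt_of_sq_le (by linarith)
    norm_num
    linarith
  have hRR : 4 ^ 2 ≤ R ^ 2 := pow_le_pow_left₀ (by norm_num) hR 2
  have r2 : 0.024 / R ^ 2 ≤ 0.0015 := by
    rw [div_le_iff₀ (by positivity)]
    norm_num at hRR ⊢
    linarith
  have r3 : 2 * s ^ 2 * (0.006 / R ^ 2) ≤ 0.005 := num_r3 hs0 hR0 hs3 hs2
  have r4 : √(3 * R) ≤ R := by
    apply Real.sqrt_le_iff.mpr
    exact ⟨hR0.le, by nlinarith⟩
  unfold EE C1 C2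
  rw [hq, hxl, ← hE]
  have w1 : √(2 * π * s) * (√(2 * R) * (1 + 0.006 / R ^ 2) + E * √(3 * R) * (1 + 0.024 / R ^ 2) +
      1 / (4 * s * √R)) = (√(2 * π * s) * √(2 * R)) * (1 + 0.006 / R ^ 2) +
      E * (√(2 * π * s) * √(3 * R)) * (1 + 0.024 / R ^ 2) +
      √(2 * π * s) * (1 / (4 * s * √R)) := by ring
  have w0 : 2 * s ^ 2 * (1 + 0.006 / R ^ 2) = 2 * s ^ 2 + 2 * s ^ 2 * (0.006 / R ^ 2) := by ring
  rw [w1, q1, w0]
  have w2 : E * (√(2 * π * s) * √(3 * R)) * (1 + 0.024 / R ^ 2) ≤ E * (2.45 * s ^ 2) * (1 + 0.0015) := by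
    gcongr
  have w3 : (4 * s) ^ 2 * (R / 2) * E * √(3 * R) * (1 + 0.024 / R ^ 2) ≤
      (4 * s) ^ 2 * (R / 2) * E * R * (1 + 0.0015) := by gcongr
  have w4 : (4 * s) ^ 2 * (R / 2) * E * R * (1 + 0.0015) = E * (2.003 * (2 * s * R) ^ 2) := by ring
  have w5 : E * (2.45 * s ^ 2) * (1 + 0.0015) ≤ E * (0.04 * (2 * s * R) ^ 2) := by
    have h1 : s ^ 2 * 4 ^ 2 ≤ s ^ 2 * R ^ 2 := by gcongr
    have h2 : 2.45 * s ^ 2 * (1 + 0.0015) ≤ 0.04 * (2 * s * R) ^ 2 := by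
      have : (2 * s * R) ^ 2 = 4 * (s ^ 2 * R ^ 2) := by ring
      rw [this]
      have h3 : 0 < s ^ 2 := by positivity
      norm_num at h1 ⊢
      linarith
    calc E * (2.45 * s ^ 2) * (1 + 0.0015) = E * (2.45 * s ^ 2 * (1 + 0.0015)) := by ring
      _ ≤ _ := by gcongr
  have w6 : 0 ≤ E * (2 * s * R) ^ 2 := by positivity
  norm_num at q3 r1 r3 w2 w3 w4 w5 w6 ⊢
  linarith

lemma num_contra {x S P : ℝ} (hx1 : 18.5 ≤ x) (hS : 5.38 ≤ S) (hSx : S ≤ x ^ 2 / 64)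
    (h : P * (1 - (1 + x) * rexp (-x)) ≤ S + 0.22 + (2 * S + 0.712 + rexp (-x) * (2.06 * x ^ 2))) :
    P ≤ 3 * S + 1 := by
  obtain ⟨hEx3, hEx2⟩ := num_exp hx1
  set E : ℝ := rexp (-x) with hE
  have hE0 : 0 < E := Real.exp_pos _
  have hx0 : 0 < x := by linarith
  by_contra hcon
  push Not at hcon
  have a1 : 1 + x ≤ 1.06 * x := by norm_num; norm_num at hx1; linarith
  have hxx : 18.5 ^ 2 ≤ x ^ 2 := pow_le_pow_left₀ (by norm_num) hx1 2
  have a2 : 3 * S + 1 ≤ 0.05 * x ^ 2 := by norm_num at hxx ⊢; linarith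
  have a3 : (1 + x) * (3 * S + 1) * E ≤ 0.06 * (E * x ^ 3) := by
    calc (1 + x) * (3 * S + 1) * E ≤ (1.06 * x) * (0.05 * x ^ 2) * E := by gcongr
      _ = 0.053 * (E * x ^ 3) := by ring
      _ ≤ 0.06 * (E * x ^ 3) := by
        have : 0 ≤ E * x ^ 3 := by positivity
        norm_num
        linarith
  have a4 : (1 + x) * E ≤ 0.01 := by
    have h1 : (1 + x) * E * 1 ≤ (1 + x) * E * (3 * S + 1) := by
      apply mul_le_mul_of_nonneg_left (by linarith) (by positivity)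
    have h2 : (1 + x) * E * (3 * S + 1) = (1 + x) * (3 * S + 1) * E := by ring
    norm_num at a3 hEx3 h1 ⊢
    linarith
  have hpos : 0 < 1 - (1 + x) * E := by norm_num at a4; linarith
  have h1 : (3 * S + 1) * (1 - (1 + x) * E) < P * (1 - (1 + x) * E) :=
    mul_lt_mul_of_pos_right hcon hpos
  have h2 : (3 * S + 1) * (1 - (1 + x) * E) = 3 * S + 1 - (1 + x) * (3 * S + 1) * E := by ring
  have h3 : E * (2.06 * x ^ 2) = 2.06 * (E * x ^ 2) := by ring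
  rw [h2] at h1
  rw [h3] at h
  norm_num at h h1 a3 hEx3 hEx2
  linarith

theorem large_R {R : ℝ} (hR : 4 ≤ R) :
    |NN R - π * R ^ 2| ≤ 3 * ((π * R) ^ (1 / 3 : ℝ)) ^ 2 + 1 := by
  have hR0 : 0 < R := by linarith
  have hπ := Real.pi_pos
  have hπ2 : π < 3.1416 := Real.pi_lt_d4
  obtain ⟨hs0, hs3, hs1⟩ := num_s hR
  set s : ℝ := (π * R) ^ (1 / 3 : ℝ) with hs
  have hs2 : 5.38 ≤ s ^ 2 := by
    have : (2.32 : ℝ) ^ 2 ≤ s ^ 2 := pow_le_pow_left₀ (by norm_num) hs1 2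
    norm_num at this ⊢
    linarith
  have hl : 0 < 4 * s := by positivity
  have hmain := count_ineq hl hR0
  have p1 : 4 * π * R / (4 * s) = s ^ 2 := by
    rw [div_eq_iff (by positivity)]
    linear_combination (-4) * hs3
  have p2 : 6 * π / (4 * s) ^ 2 ≤ 0.22 := by
    rw [div_le_iff₀ (by positivity), mul_pow]
    norm_num at hs2 hπ2 ⊢
    linarith
  have hEE := num_EE hR hs0 hs3 hs2
  have hHT : HT (4 * s) R = 1 - (1 + 2 * s * R) * rexp (-(2 * s * R)) := by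
    rw [HT_eq, show 4 * s * (R / 2) = 2 * s * R by ring]
  rw [p1, hHT] at hmain
  have hx1 : 18.5 ≤ 2 * s * R := by
    have : 2 * 2.32 * 4 ≤ 2 * s * R := by gcongr
    norm_num at this ⊢
    linarith
  refine num_contra hx1 hs2 ?_ (hmain.trans (add_le_add (by linarith) hEE))
  have h1 : s ^ 2 * 4 ^ 2 ≤ s ^ 2 * R ^ 2 := by gcongr
  have : (2 * s * R) ^ 2 = 4 * (s ^ 2 * R ^ 2) := by ring
  rw [this]
  norm_num at h1 ⊢
  linarith

end Helper52.Circle
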