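import Mathlib
import Pool.Agent.Helper52.Circle.Numeric

/-!
Small radii and the final statement of the explicit two thirds bound.
-/

open Set Real

noncomputable section

namespace Helper52.Circle

lemma NN_eq_card (R : ℝ) :
    NN R = (Nat.card {p : ℤ × ℤ // (p.1 : ℝ) ^ 2 + (p.2 : ℝ) ^ 2 ≤ R ^ 2} : ℝ) := by
  unfold NN
  congr 1
  have h1 : Nat.card {p : ℤ × ℤ // (p.1 : ℝ) ^ 2 + (p.2 : ℝ) ^ 2 ≤ R ^ 2} =
      Nat.card {v : Fin 2 → ℤ // nsq (toR v) ≤ R ^ 2} := by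
    apply Nat.card_congr
    refine ((finTwoArrowEquiv ℤ).subtypeEquiv ?_).symm
    intro v
    simp [nsq, toR]
  rw [h1]
  have h2 := Nat.subtype_card (p := fun v : Fin 2 → ℤ => nsq (toR v) ≤ R ^ 2)
    (finite_disk R).toFinset (by intro v; simp)
  exact h2.symm

/-- finite model of the count -/
def cnt (n : ℤ) : ℕ := (((Finset.Icc (-3 : ℤ) 3) ×ˢ (Finset.Icc (-3 : ℤ) 3)).filter
  (fun p => p.1 ^ 2 + p.2 ^ 2 ≤ n)).card

lemma card_eq_cnt {R : ℝ} (hR : R ^ 2 < 16) :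
    Nat.card {p : ℤ × ℤ // (p.1 : ℝ) ^ 2 + (p.2 : ℝ) ^ 2 ≤ R ^ 2} = cnt ⌊R ^ 2⌋ := by
  unfold cnt
  apply Nat.subtype_card
  intro p
  have hfl : ⌊R ^ 2⌋ ≤ 15 := by
    have : ⌊R ^ 2⌋ < 16 := Int.floor_lt.mpr (by exact_mod_cast hR)
    omega
  have hiff : (p.1 ^ 2 + p.2 ^ 2 ≤ ⌊R ^ 2⌋) ↔ (p.1 : ℝ) ^ 2 + (p.2 : ℝ) ^ 2 ≤ R ^ 2 := by
    rw [Int.le_floor]
    push_cast
    rfl
  rw [← hiff, Finset.mem_filter, Finset.mem_product, Finset.mem_Icc, Finset.mem_Icc]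
  constructor
  · exact fun h => h.2
  · intro h
    refine ⟨⟨⟨?_, ?_⟩, ⟨?_, ?_⟩⟩, h⟩ <;> nlinarith [sq_nonneg p.1, sq_nonneg p.2]

lemma cnt_bounds (n : ℤ) (h1 : 1 ≤ n) (h15 : n ≤ 15) :
    |(cnt n : ℝ) - 3.1416 * n| ≤ 5.9 ∧ |(cnt n : ℝ) - 3.1416 * (n + 1)| ≤ 5.9 := by
  have c1 : cnt 1 = 5 := by decide
  have c2 : cnt 2 = 9 := by decide
  have c3 : cnt 3 = 9 := by decide
  have c4 : cnt 4 = 13 := by decide
  have c5 : cnt 5 = 21 := by decide
  have c6 : cnt 6 = 21 := by decide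
  have c7 : cnt 7 = 21 := by decide
  have c8 : cnt 8 = 25 := by decide
  have c9 : cnt 9 = 29 := by decide
  have c10 : cnt 10 = 37 := by decide
  have c11 : cnt 11 = 37 := by decide
  have c12 : cnt 12 = 37 := by decide
  have c13 : cnt 13 = 45 := by decide
  have c14 : cnt 14 = 45 := by decide
  have c15 : cnt 15 = 45 := by decide
  interval_cases n <;> simp only [c1, c2, c3, c4, c5, c6, c7, c8, c9, c10, c11, c12, c13, c14, c15] <;>
    constructor <;> rw [abs_le] <;> constructor <;> norm_num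

lemma mid_R {R : ℝ} (h1 : 1 ≤ R) (h4 : R < 4) : |NN R - π * R ^ 2| ≤ 6 := by
  have hπ1 : 3.1415 < π := Real.pi_gt_d4
  have hπ2 : π < 3.1416 := Real.pi_lt_d4
  have hR16 : R ^ 2 < 16 := by nlinarith
  have hR1 : 1 ≤ R ^ 2 := by nlinarith
  rw [NN_eq_card, card_eq_cnt hR16]
  set n := ⌊R ^ 2⌋ with hn
  have hn1 : 1 ≤ n := Int.le_floor.mpr (by exact_mod_cast hR1)
  have hn15 : n ≤ 15 := by
    have : n < 16 := Int.floor_lt.mpr (by exact_mod_cast hR16)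
    omega
  obtain ⟨b1, b2⟩ := cnt_bounds n hn1 hn15
  have f1 : (n : ℝ) ≤ R ^ 2 := Int.floor_le _
  have f2 : R ^ 2 < n + 1 := Int.lt_floor_add_one _
  rw [abs_le] at b1 b2 ⊢
  have g1 : π * n ≤ π * R ^ 2 := by gcongr
  have g2 : π * R ^ 2 ≤ π * (n + 1) := by gcongr
  have hnr : (1:ℝ) ≤ n := by exact_mod_cast hn1
  have hnr2 : (n:ℝ) ≤ 15 := by exact_mod_cast hn15
  have g3 : π * (n + 1) ≤ 3.1416 * (n + 1) := by gcongr
  have g4 : 3.1415 * n ≤ π * n := by gcongr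
  constructor
  · norm_num at b1 b2 g1 g2 g3 g4 ⊢
    linarith [b2.1]
  · norm_num at b1 b2 g1 g2 g3 g4 ⊢
    linarith [b1.2]

lemma tiny_R {R : ℝ} (h0 : 0 ≤ R) (h1 : R < 1) : NN R = 1 := by
  have hR16 : R ^ 2 < 16 := by nlinarith
  rw [NN_eq_card, card_eq_cnt hR16]
  have : ⌊R ^ 2⌋ = 0 := by
    rw [Int.floor_eq_zero_iff]
    exact ⟨sq_nonneg R, by nlinarith⟩
  rw [this]
  have : cnt 0 = 1 := by decide
  rw [this]
  norm_num

/-- The explicit bound with the exponent two thirds. -/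
theorem explicit_two_thirds {R : ℝ} (hR : 0 ≤ R) :
    |(Nat.card {p : ℤ × ℤ // (p.1 : ℝ) ^ 2 + (p.2 : ℝ) ^ 2 ≤ R ^ 2} : ℝ) - π * R ^ 2| ≤
      3 * (π * R) ^ (2 / 3 : ℝ) + 1 := by
  rw [← NN_eq_card]
  have hπ := Real.pi_pos
  have hπ1 : 3.1415 < π := Real.pi_gt_d4
  have hπ2 : π < 3.1416 := Real.pi_lt_d4
  have hpow : (π * R) ^ (2 / 3 : ℝ) = ((π * R) ^ (1 / 3 : ℝ)) ^ 2 := by
    rw [← Real.rpow_natCast, ← Real.rpow_mul (by positivity)]
    norm_num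
  rw [hpow]
  rcases le_or_gt 4 R with h4 | h4
  · exact large_R h4
  set s : ℝ := (π * R) ^ (1 / 3 : ℝ) with hs
  have hs0 : 0 ≤ s := Real.rpow_nonneg (by positivity) _
  have hs3 : s ^ 3 = π * R := by
    rw [hs, ← Real.rpow_natCast, ← Real.rpow_mul (by positivity)]
    norm_num
  rcases le_or_gt 1 R with h1 | h1
  · refine (mid_R h1 h4).trans ?_
    have h2 : 2 ≤ s ^ 2 := by
      by_contra hcon
      push Not at hcon
      have h3 : s ^ 3 * s ^ 3 < 8 := by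
        have : s ^ 3 * s ^ 3 = s ^ 2 * s ^ 2 * s ^ 2 := by ring
        rw [this]
        have h4 : s ^ 2 * s ^ 2 ≤ 2 * 2 := by
          apply mul_le_mul hcon.le hcon.le (sq_nonneg s) (by norm_num)
        nlinarith [sq_nonneg s]
      rw [hs3] at h3
      have h5 : 3 * 1 ≤ π * R := by gcongr; linarith
      have h6 : (3 * 1) * (3 * 1) ≤ π * R * (π * R) := by gcongr
      linarith
    linarith
  · rw [tiny_R hR h1, abs_le]
    have hs3' : s ≤ 3 := by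
      by_contra hcon
      push Not at hcon
      have : (3:ℝ) ^ 3 ≤ s ^ 3 := pow_le_pow_left₀ (by norm_num) hcon.le 3
      rw [hs3] at this
      nlinarith
    constructor
    · have h2 : π * R ^ 2 ≤ 3 * s ^ 2 := by
        calc π * R ^ 2 = s ^ 3 * R := by rw [hs3]; ring
          _ ≤ s ^ 3 * 1 := by gcongr
          _ = s * s ^ 2 := by ring
          _ ≤ 3 * s ^ 2 := by gcongr
      linarith
    · have : 0 ≤ π * R ^ 2 := by positivity
      nlinarith [sq_nonneg s]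

end Helper52.Circle
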